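import Pool.Agent.U23.TB.BDefs
import Pool.Agent.U23.TP.PT

/-!
# The control of the algorithm takes polynomial time
-/

set_option autoImplicit false

namespace Pool.Agent.U23.TB

open Pool.Agent.NPC Pool.Agent.H558R2 Pool.Agent.H622R3.SM Pool.Agent.W920.FC Pool.Agent.U23.LR
  Pool.Agent.U23.TP

section
variable {α : Type} [TEnc α]

lemma rk2_upoly {U V : α → List Unit} (hU : Poly U) (hV : Poly V) :
    UPoly (fun a => rk2 (U a).length (V a).length) := by
  refine UPoly.of_le (n := fun a => (U a).length) ?_ (UPoly.length hU) fun a => ?_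
  · unfold rk2
    fun_prop
  · unfold rk2
    omega

lemma stat_poly {r j : α → ℕ} {I : α → List ℕ} (hr : UPoly r) (hI : Poly I) (hj : Poly j) :
    Poly (fun a => stat (r a) (I a) (j a)) := by
  have hr' := hr.toPoly
  have h1 : Poly (fun a => (List.range (r a)).any fun l => decide ((I a).getD l 0 = j a)) := by
    refine NPC.Poly.any (p := fun a l => decide ((I a).getD l 0 = j a)) hr.range ?_
    fun_prop
  have h2 : Poly (fun a => ((List.range (r a)).filter fun l =>
      decide ((I a).getD l 0 < j a)).length) := by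
    refine NPC.Poly.length (NPC.Poly.filter (p := fun a l => decide ((I a).getD l 0 < j a))
      hr.range ?_)
    fun_prop
  unfold stat
  refine NPC.Poly.ite (h1.congr fun a => ?_) (NPC.Poly.const 2)
    (NPC.Poly.mod (NPC.Poly.add hr' h2) (NPC.Poly.const 2))
  cases ((List.range (r a)).any fun l => decide ((I a).getD l 0 = j a)) <;> simp

lemma col_poly {m r n i : α → ℕ} {I : α → List ℕ} (hm : Poly m) (hr : UPoly r) (hn : Poly n)
    (hI : Poly I) (hi : Poly i) : Poly (fun a => colN (m a) (r a) (n a) (I a) (i a)) := by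
  have hr' := hr.toPoly
  have h1 : Poly (fun a => stat (r a) (I a) (i a - (r a + r a))) :=
    stat_poly hr hI (NPC.Poly.sub hi (NPC.Poly.add hr' hr'))
  have h2 : Poly (fun a => stat (r a) (I a) (i a - (r a + r a + n a))) :=
    stat_poly hr hI (NPC.Poly.sub hi (NPC.Poly.add (NPC.Poly.add hr' hr') hn))
  unfold colN
  refine NPC.Poly.ite (by fun_prop) (by fun_prop) (NPC.Poly.ite (by fun_prop) (by fun_prop)
    (NPC.Poly.ite (by fun_prop) (NPC.Poly.ite ?_ (by fun_prop) (by fun_prop))
      (NPC.Poly.ite ?_ (by fun_prop) (by fun_prop))))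
  · exact NPC.Poly.dec_eq h1 (NPC.Poly.const 0)
  · exact NPC.Poly.dec_eq h2 (NPC.Poly.const 1)

lemma gam2_poly {U V : α → List Unit} {r k : α → ℕ} {I : α → List ℕ} (hU : Poly U) (hV : Poly V)
    (hr : UPoly r) (hI : Poly I) (hk : Poly k) :
    Poly (fun a => gam2 (U a).length (V a).length (r a) (I a) (k a)) := by
  unfold gam2
  refine NPC.Poly.map (F := fun a i => if i = k a then (U a).length + ((V a).length + (V a).length)
    else colN (U a).length (r a) (V a).length (I a) i) (NPC.Poly.range_length hU) ?_
  have h1 : Poly (fun p : α × ℕ => p.1) := NPC.Poly.fst NPC.Poly.id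
  refine NPC.Poly.ite (by fun_prop) (by fun_prop) ?_
  exact col_poly (m := fun p : α × ℕ => (U p.1).length) (r := fun p => r p.1)
    (n := fun p => (V p.1).length) (i := fun p => p.2) (I := fun p => I p.1)
    (NPC.Poly.length (hU.comp h1)) (UPoly.comp hr h1) (NPC.Poly.length (hV.comp h1))
    (hI.comp h1) (NPC.Poly.snd NPC.Poly.id)

lemma qs2_poly {U V : α → List Unit} {r : α → ℕ} {I : α → List ℕ} (hU : Poly U) (hV : Poly V)
    (hr : UPoly r) (hI : Poly I) :
    Poly (fun a => qs2 (U a).length (V a).length (r a) (I a)) := by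
  unfold qs2
  refine NPC.Poly.map (F := fun a k => qry (U a).length (V a).length
    (gam2 (U a).length (V a).length (r a) (I a) k))
    ((UPoly.length hU).add (UPoly.const 1)).range ?_
  have h1 : Poly (fun p : α × ℕ => p.1) := NPC.Poly.fst NPC.Poly.id
  exact qry_poly (U := fun p : α × ℕ => U p.1) (V := fun p => V p.1)
    (γ := fun p => gam2 (U p.1).length (V p.1).length (r p.1) (I p.1) p.2) (hU.comp h1)
    (hV.comp h1) (gam2_poly (U := fun p : α × ℕ => U p.1) (V := fun p => V p.1)
      (r := fun p => r p.1) (I := fun p => I p.1) (hU.comp h1) (hV.comp h1) (UPoly.comp hr h1)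
      (hI.comp h1) (NPC.Poly.snd NPC.Poly.id))

lemma ng_poly {m q : α → ℕ} {o : α → List Outcome} (hm : Poly m) (ho : Poly o) (hq : Poly q) :
    Poly (fun a => ng (m a) (o a) (q a)) := by
  unfold ng
  fun_prop

lemma row_poly {r n k : α → ℕ} {I : α → List ℕ} (hr : Poly r) (hn : Poly n) (hI : Poly I)
    (hk : Poly k) : Poly (fun a => row (r a) (n a) (I a) (k a)) := by
  unfold row
  fun_prop

lemma hit2_poly {m r n : α → ℕ} {I : α → List ℕ} {o : α → List Outcome} (hm : Poly m)
    (hr : UPoly r) (hn : Poly n) (hI : Poly I) (ho : Poly o) :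
    Poly (fun a => hit2 (m a) (r a) (n a) (I a) (o a)) := by
  have h1 : Poly (fun p : α × ℕ => p.1) := NPC.Poly.fst NPC.Poly.id
  unfold hit2
  refine NPC.Poly.reverse (NPC.Poly.filter
    (p := fun a k => ng (m a) (o a) (row (r a) (n a) (I a) k)) hr.range ?_)
  exact ng_poly (m := fun p : α × ℕ => m p.1) (o := fun p => o p.1)
    (q := fun p => row (r p.1) (n p.1) (I p.1) p.2) (hm.comp h1) (ho.comp h1)
    (row_poly (r := fun p : α × ℕ => r p.1) (n := fun p => n p.1) (I := fun p => I p.1)
      (k := fun p => p.2) (hr.toPoly.comp h1) (hn.comp h1) (hI.comp h1) (NPC.Poly.snd NPC.Poly.id))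

lemma nxt2_poly {m r n : α → ℕ} {I : α → List ℕ} {o : α → List Outcome} (hm : Poly m)
    (hr : UPoly r) (hn : Poly n) (hI : Poly I) (ho : Poly o) :
    Poly (fun a => nxt2 (m a) (r a) (n a) (I a) (o a)) := by
  unfold nxt2
  refine NPC.Poly.optGetD (NPC.Poly.optMap_fp
    (h := fun a k => clip (r a) (n a) (I a) (shiftL (r a) k (I a)))
    (NPC.Poly.head? (hit2_poly hm hr hn hI ho)) ?_) hI
  have h1 : Poly (fun p : α × ℕ => p.1) := NPC.Poly.fst NPC.Poly.id
  exact clip_poly (r := fun p : α × ℕ => r p.1) (n := fun p => n p.1) (I := fun p => I p.1)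
    (I' := fun p => shiftL (r p.1) p.2 (I p.1)) (hr.toPoly.comp h1) (hn.comp h1) (hI.comp h1)
    (shift_poly (r := fun p : α × ℕ => r p.1) (k := fun p => p.2) (I := fun p => I p.1)
      (UPoly.comp hr h1) (NPC.Poly.snd NPC.Poly.id) (hI.comp h1))

lemma ok2_poly {U : α → List Unit} {r n : α → ℕ} {I : α → List ℕ} {o : α → List Outcome}
    (hU : Poly U) (hr : UPoly r) (hn : Poly n) (hI : Poly I) (ho : Poly o) :
    Poly (fun a => ok2 (U a).length (r a) (n a) (I a) (o a)) := by
  have h1 : Poly (fun p : α × ℕ => p.1) := NPC.Poly.fst NPC.Poly.id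
  unfold ok2
  refine NPC.Poly.and (by fun_prop) (NPC.Poly.all
    (p := fun a q => !decide (colN (U a).length (r a) (n a) (I a) q = q) ||
      !ng (U a).length (o a) q) (NPC.Poly.range_length hU) ?_)
  refine NPC.Poly.or (NPC.Poly.not (NPC.Poly.dec_eq ?_ (NPC.Poly.snd NPC.Poly.id)))
    (NPC.Poly.not ?_)
  · exact col_poly (m := fun p : α × ℕ => (U p.1).length) (r := fun p => r p.1)
      (n := fun p => n p.1) (i := fun p => p.2) (I := fun p => I p.1)
      (NPC.Poly.length (hU.comp h1)) (UPoly.comp hr h1) (hn.comp h1)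
      (hI.comp h1) (NPC.Poly.snd NPC.Poly.id)
  · exact ng_poly (m := fun p : α × ℕ => (U p.1).length) (o := fun p => o p.1)
      (q := fun p => p.2) (NPC.Poly.length (hU.comp h1)) (ho.comp h1)
      (NPC.Poly.snd NPC.Poly.id)

lemma stp2_pt {U V : α → List Unit} {I : α → List ℕ} (hU : Poly U) (hV : Poly V) (hI : Poly I) :
    PT (fun a => stp2 (U a).length (V a).length (I a)) := by
  have hP := t_PT
  have hr := rk2_upoly hU hV
  unfold stp2
  refine hP.2.1 α (List Outcome) (List ℕ)
    (fun a => batch (qs2 (U a).length (V a).length (rk2 (U a).length (V a).length) (I a)))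
    (fun a o => ret (nxt2 (U a).length (rk2 (U a).length (V a).length) (V a).length (I a) o))
    (hP.2.2 _ _ (qs2_poly hU hV hr hI)) ?_
  apply hP.1
  have h1 : Poly (fun p : α × List Outcome => p.1) := NPC.Poly.fst NPC.Poly.id
  exact nxt2_poly (m := fun p : α × List Outcome => (U p.1).length)
    (r := fun p => rk2 (U p.1).length (V p.1).length)
    (n := fun p => (V p.1).length) (I := fun p => I p.1) (o := fun p => p.2)
    (NPC.Poly.length (hU.comp h1)) (UPoly.comp hr h1) (NPC.Poly.length (hV.comp h1))
    (hI.comp h1) (NPC.Poly.snd NPC.Poly.id)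

lemma inv_nxt2 {m r n i : ℕ} {y : List ℕ} (o : List Outcome) (h : Pool.Agent.U23.TP.Inv r i y) :
    Pool.Agent.U23.TP.Inv r (i + 1) (nxt2 m r n y o) := by
  have h0 : Pool.Agent.U23.TP.Inv r (i + 1) y := ⟨h.1, fun x hx => by
    have := h.2 x hx
    omega⟩
  unfold nxt2
  cases (hit2 m r n y o).head? with
  | none => exact h0
  | some k =>
    show Pool.Agent.U23.TP.Inv r (i + 1) (clip r n y (shiftL r k y))
    unfold clip
    split_ifs
    · refine ⟨by simp [shiftL], fun x hx => ?_⟩
      unfold shiftL at hx
      obtain ⟨l, -, rfl⟩ := List.mem_map.1 hx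
      have := getD_le' h.2 l
      split_ifs <;> omega
    · exact h0

lemma out_stp2 (hO : S_OUT) {m n : ℕ} {s c : List ℕ} (h : Out (stp2 m n s) c) :
    ∃ o, c = nxt2 m (rk2 m n) n s o := by
  unfold stp2 at h
  obtain ⟨o, -, ho⟩ := hO.2.1 _ _ _ _ _ h
  exact ⟨o, hO.1 _ _ _ ho⟩

lemma tp2_pt {U V : α → List Unit} (hU : Poly U) (hV : Poly V) :
    PT (fun a => tp2 (U a).length (V a).length) := by
  have hP := t_PT
  have hI := t_PTITER
  have hO := t_OUT.1
  have hr := rk2_upoly hU hV
  have hn : UPoly (fun a => rk2 (U a).length (V a).length * (V a).length) :=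
    hr.mul (UPoly.length hV)
  unfold tp2
  refine hP.2.1 α (List ℕ) Bool
    (fun a => iter (stp2 (U a).length (V a).length)
      (rk2 (U a).length (V a).length * (V a).length)
      (List.range (rk2 (U a).length (V a).length)))
    (fun a I => bnd (batch (qs2 (U a).length (V a).length (rk2 (U a).length (V a).length) I))
      fun o => ret (ok2 (U a).length (rk2 (U a).length (V a).length) (V a).length I o)) ?_ ?_
  · refine hI α (List ℕ) (fun a => stp2 (U a).length (V a).length)
      (fun a => rk2 (U a).length (V a).length * (V a).length)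
      (fun a => List.range (rk2 (U a).length (V a).length)) ?_ hn hr.range ?_ ?_
    · have h1 : Poly (fun p : α × List ℕ => p.1) := NPC.Poly.fst NPC.Poly.id
      exact stp2_pt (U := fun p : α × List ℕ => U p.1) (V := fun p => V p.1) (I := fun p => p.2)
        (hU.comp h1) (hV.comp h1) (NPC.Poly.snd NPC.Poly.id)
    · intro a s
      unfold stp2
      apply hO.2.2.2.2.1
      · exact hO.2.2.2.2.2.1 _
      · intro o
        exact hO.2.2.2.1 _ _
    · obtain ⟨p, hp⟩ := NPC.Poly.sz_le (show UPoly (fun a => rk2 (U a).length (V a).length *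
        (4 * (rk2 (U a).length (V a).length + rk2 (U a).length (V a).length * (V a).length) + 2) + 1)
        from ((hr.mul (((UPoly.const 4).mul (hr.add hn)).add (UPoly.const 2))).add
          (UPoly.const 1)))
      refine ⟨p, fun a i s hi hs => ?_⟩
      have hinv : ∀ i s, Out (iter (stp2 (U a).length (V a).length) i
          (List.range (rk2 (U a).length (V a).length))) s →
          Pool.Agent.U23.TP.Inv (rk2 (U a).length (V a).length) i s := by
        intro i
        induction i with
        | zero =>
          intro s hs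
          rw [hO.1 _ _ s hs]
          refine ⟨List.length_range, fun x hx => ?_⟩
          have := List.mem_range.1 hx
          omega
        | succ i ih =>
          intro s hs
          obtain ⟨b, hb, hc⟩ := hO.2.2.1 _ _ i _ s hs
          obtain ⟨o, ho⟩ := out_stp2 hO hc
          rw [ho]
          exact inv_nxt2 o (ih b hb)
      refine (inv_sz (hinv i s hs)).trans ?_
      have h1 := hp a
      beta_reduce at h1
      have h2 := length_lt_sz (List.replicate (rk2 (U a).length (V a).length *
        (4 * (rk2 (U a).length (V a).length + rk2 (U a).length (V a).length * (V a).length) + 2) + 1)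
        ())
      rw [List.length_replicate] at h2
      have h3 : rk2 (U a).length (V a).length * (4 * (rk2 (U a).length (V a).length + i) + 2) ≤
          rk2 (U a).length (V a).length * (4 * (rk2 (U a).length (V a).length +
            rk2 (U a).length (V a).length * (V a).length) + 2) :=
        Nat.mul_le_mul_left _ (by omega)
      omega
  · have h1 : Poly (fun p : α × List ℕ => p.1) := NPC.Poly.fst NPC.Poly.id
    refine hP.2.1 (α × List ℕ) (List Outcome) Bool
      (fun p => batch (qs2 (U p.1).length (V p.1).length (rk2 (U p.1).length (V p.1).length) p.2))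
      (fun p o => ret (ok2 (U p.1).length (rk2 (U p.1).length (V p.1).length) (V p.1).length p.2 o))
      (hP.2.2 _ _ (qs2_poly (U := fun p : α × List ℕ => U p.1) (V := fun p => V p.1)
        (I := fun p => p.2) (hU.comp h1) (hV.comp h1) (UPoly.comp hr h1)
        (NPC.Poly.snd NPC.Poly.id))) ?_
    apply hP.1
    have h2 : Poly (fun p : (α × List ℕ) × List Outcome => p.1.1) :=
      NPC.Poly.fst (NPC.Poly.fst NPC.Poly.id)
    exact ok2_poly (U := fun p : (α × List ℕ) × List Outcome => U p.1.1)
      (r := fun p => rk2 (U p.1.1).length (V p.1.1).length) (n := fun p => (V p.1.1).length)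
      (I := fun p => p.1.2) (o := fun p => p.2) (hU.comp h2) (UPoly.comp hr h2)
      (NPC.Poly.length (hV.comp h2)) (NPC.Poly.snd (NPC.Poly.fst NPC.Poly.id))
      (NPC.Poly.snd NPC.Poly.id)

end

/-- The control of the algorithm takes polynomial time. -/
theorem control2 : PolyControl (algOf tp2) := by
  refine t_OUT.2 tp2 ?_
  exact tp2_pt (α := List Unit × List Unit) (U := fun p => p.1) (V := fun p => p.2)
    (NPC.Poly.fst NPC.Poly.id) (NPC.Poly.snd NPC.Poly.id)

/-- The algorithm asks no question to an oracle. -/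
theorem oracleFree2 : OracleFree (algOf tp2) := by
  intro m n h
  unfold algOf
  cases tp2 m n h <;> simp

end Pool.Agent.U23.TB
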