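import Pool.Agent.U23.TP.Cf

/-!
# Dependencies of the vectors of a Chebyshev system change sign at least `r` times
-/

set_option autoImplicit false

namespace Pool.Agent.U23.TB

open Finset Pool.Agent.U23.TP

/-- enlarging a set of zeros without changing the signs -/
lemma ext_set {n : ℕ} : ∀ (t : ℕ) (T : Finset ℕ), (∀ x ∈ T, x < n) → T.card + t ≤ n →
    ∃ G : Finset ℕ, T ⊆ G ∧ G.card = T.card + t ∧ (∀ x ∈ G, x < n) ∧
      ∀ j < n, j ∉ G → (G.filter fun x => x < j).card = (T.filter fun x => x < j).card
  | 0, T, h1, _ => ⟨T, Finset.Subset.refl _, rfl, h1, fun _ _ _ => rfl⟩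
  | t + 1, T, h1, h2 => by
    classical
    obtain ⟨G, g1, g2, g3, g4⟩ := ext_set t T h1 (by omega)
    have hne : (range n \ G).Nonempty := by
      rw [← Finset.card_pos]
      have := Finset.le_card_sdiff G (range n)
      rw [Finset.card_range] at this
      omega
    set e := (range n \ G).max' hne with he
    have hmem := Finset.max'_mem (range n \ G) hne
    rw [← he, Finset.mem_sdiff, Finset.mem_range] at hmem
    refine ⟨insert e G, g1.trans (Finset.subset_insert _ _), ?_, ?_, ?_⟩
    · rw [Finset.card_insert_of_notMem hmem.2, g2]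
      rfl
    · intro x hx
      rcases Finset.mem_insert.1 hx with h3 | h3
      · rw [h3]
        exact hmem.1
      · exact g3 x h3
    · intro j hj hjG
      rw [Finset.mem_insert, not_or] at hjG
      rw [← g4 j hj hjG.2, Finset.filter_insert, if_neg]
      have h3 : j ≤ e := Finset.le_max' _ _ (Finset.mem_sdiff.2 ⟨Finset.mem_range.2 hj, hjG.2⟩)
      omega

/-- A chain of `s + 1` alternating signs which is greedy. -/
def Chain (n : ℕ) (d : ℕ → ℝ) (s : ℕ) : Prop :=
  ∃ (i : ℕ → ℕ) (τ : ℝ), (τ = 1 ∨ τ = -1) ∧ (∀ m < s, i m < i (m + 1)) ∧ i s < n ∧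
    (∀ m ≤ s, 0 < τ * (-1) ^ m * d (i m)) ∧ (∀ j < i 0, d j = 0) ∧
    ∀ m < s, ∀ j, i m ≤ j → j < i (m + 1) → 0 ≤ τ * (-1) ^ m * d j

lemma chain_lt {i : ℕ → ℕ} {s : ℕ} (h : ∀ m < s, i m < i (m + 1)) {a b : ℕ} (hab : a < b)
    (hb : b ≤ s) : i a < i b := by
  obtain ⟨k, rfl⟩ : ∃ k, b = a + 1 + k := ⟨b - a - 1, by omega⟩
  induction k with
  | zero => exact h a (by omega)
  | succ k ih =>
    have h1 := ih (by omega) (by omega)
    have h2 := h (a + 1 + k) (by omega)
    rw [show a + 1 + (k + 1) = a + 1 + k + 1 by omega]
    omega

theorem chain_all {r n : ℕ} {p : ℕ → Fin r → ℝ} (hrn : r ≤ n) (hp : Cheb r n p)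
    (d : ℕ → ℝ) (hd : ∑ j ∈ range n, d j • p j = 0) (hne : ∃ j < n, d j ≠ 0) :
    ∀ s ≤ r, Chain n d s := by
  classical
  intro s
  induction s with
  | zero =>
    intro _
    have h1 := Nat.find_spec hne
    refine ⟨fun _ => Nat.find hne, if 0 < d (Nat.find hne) then 1 else -1, ?_,
      fun m hm => absurd hm (Nat.not_lt_zero _), h1.1, fun m hm => ?_, fun j hj => ?_,
      fun m hm => absurd hm (Nat.not_lt_zero _)⟩
    · split_ifs
      · exact Or.inl rfl
      · exact Or.inr rfl
    · have : m = 0 := by omega
      subst this
      split_ifs with h2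
      · simpa using h2
      · have h3 : d (Nat.find hne) < 0 := lt_of_le_of_ne (not_lt.1 h2) h1.2
        simp
        exact h3
    · have h2 := Nat.find_min hne hj
      by_contra h3
      exact h2 ⟨by have : j < Nat.find hne := hj; exact this.trans h1.1, h3⟩
  | succ s ih =>
    intro hs
    obtain ⟨i, τ, hτ, i1, i2, i3, i4, i5⟩ := ih (by omega)
    by_cases hex : ∃ j, i s < j ∧ j < n ∧ τ * (-1) ^ s * d j < 0
    · have h1 := Nat.find_spec hex
      set e := Nat.find hex with he
      refine ⟨fun m => if m ≤ s then i m else e, τ, hτ, fun m hm => ?_, ?_, fun m hm => ?_,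
        fun j hj => ?_, fun m hm j hj1 hj2 => ?_⟩
      · simp only
        rw [if_pos (show m ≤ s by omega)]
        split_ifs with h2
        · exact i1 m (by omega)
        · have : m = s := by omega
          rw [this]
          exact h1.1
      · simp only
        rw [if_neg (by omega)]
        exact h1.2.1
      · simp only
        split_ifs with h2
        · exact i3 m h2
        · have : m = s + 1 := by omega
          rw [this, pow_succ]
          linarith [h1.2.2]
      · simp only [Nat.zero_le, if_true] at hj
        exact i4 j hj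
      · simp only at hj1 hj2
        rw [if_pos (show m ≤ s by omega)] at hj1
        split_ifs at hj2 with h2
        · exact i5 m (by omega) j hj1 hj2
        · have hms : m = s := by omega
          rw [hms] at hj1 ⊢
          rcases Nat.lt_or_ge (i s) j with h3 | h3
          · have h4 := Nat.find_min hex hj2
            by_contra h5
            exact h4 ⟨h3, hj2.trans h1.2.1, not_le.1 h5⟩
          · have h4 : j = i s := by omega
            rw [h4]
            exact (i3 s (le_refl _)).le
    · exfalso
      push Not at hex
      -- the positions of the sign changes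
      set g : Fin s → ℕ := fun l => i (l + 1) with hg
      have hgm : StrictMono g := by
        intro a b hab
        have h1 : (a : ℕ) < b := hab
        exact chain_lt i1 (show (a : ℕ) + 1 < b + 1 by omega) (by have := b.2; omega)
      set T : Finset ℕ := univ.image g with hT
      have hTc : T.card = s := by
        rw [hT, Finset.card_image_of_injective _ hgm.injective, Finset.card_univ,
          Fintype.card_fin]
      have hin : ∀ m ≤ s, i m < n := by
        intro m hm
        rcases Nat.lt_or_ge m s with h1 | h1
        · exact (chain_lt i1 h1 (le_refl _)).trans i2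
        · rwa [show m = s by omega]
      have hTn : ∀ x ∈ T, x < n := by
        intro x hx
        obtain ⟨l, _, rfl⟩ := Finset.mem_image.1 hx
        exact hin _ (by have := l.2; omega)
      have hsgn : ∀ j < n, j ∉ T → 0 ≤ τ * (-1) ^ (T.filter fun x => x < j).card * d j := by
        intro j hj hjT
        have hc : (T.filter fun x => x < j).card = (univ.filter fun l => g l < j).card := by
          rw [hT, Finset.filter_image, Finset.card_image_of_injective _ hgm.injective]
        rw [hc]
        set k := (univ.filter fun l => g l < j).card with hk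
        have hks : k ≤ s := by
          have := Finset.card_le_univ (univ.filter fun l => g l < j)
          rw [Fintype.card_fin] at this
          exact this
        have hseg := fun l => seg hgm j l
        have hup : k < s → j < i (k + 1) := by
          intro h1
          have h2 := hseg ⟨k, h1⟩
          have h3 : ¬ g ⟨k, h1⟩ < j := by
            rw [h2]
            simp only [← hk, lt_irrefl, not_false_iff]
          have h4 : j ≠ g ⟨k, h1⟩ := by
            intro h5
            exact hjT (Finset.mem_image.2 ⟨⟨k, h1⟩, Finset.mem_univ _, h5.symm⟩)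
          have h5 : g ⟨k, h1⟩ = i (k + 1) := rfl
          rw [h5] at h3 h4
          omega
        have hlo : 0 < k → i k < j := by
          intro h1
          have h2 := (hseg ⟨k - 1, by omega⟩).2 (by simp only [← hk]; omega)
          have h5 : g ⟨k - 1, by omega⟩ = i (k - 1 + 1) := rfl
          rwa [h5, show k - 1 + 1 = k by omega] at h2
        rcases Nat.eq_zero_or_pos k with h0 | h0
        · rw [h0] at hup ⊢
          rcases Nat.lt_or_ge j (i 0) with h1 | h1
          · rw [i4 j h1, mul_zero]
          · rcases Nat.eq_zero_or_pos s with hs0 | hs0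
            · rcases Nat.lt_or_ge (i 0) j with h2 | h2
              · have := hex j (by rw [hs0]; exact h2) hj
                rwa [hs0] at this
              · rw [show j = i 0 by omega]
                exact (i3 0 (Nat.zero_le _)).le
            · exact i5 0 hs0 j h1 (hup hs0)
        · have h1 := hlo h0
          rcases Nat.lt_or_ge k s with h2 | h2
          · exact i5 k h2 j h1.le (hup h2)
          · have h3 : k = s := by omega
            rw [h3] at h1 ⊢
            exact hex j h1 hj
      obtain ⟨q, rfl⟩ : ∃ q, r = q + 1 := ⟨r - 1, by omega⟩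
      obtain ⟨G, g1, g2, g3, g4⟩ := ext_set (n := n) (q - s) T hTn (by rw [hTc]; omega)
      rw [hTc, show s + (q - s) = q by omega] at g2
      obtain ⟨ψ, h1, h2⟩ := exists_fct hp G g2 g3
      have hsum : ∑ j ∈ range n, τ * (d j * ψ (p j)) = 0 := by
        have h3 := congrArg ψ hd
        rw [map_sum, map_zero] at h3
        rw [← Finset.mul_sum]
        have h4 : ∑ j ∈ range n, d j * ψ (p j) = 0 := by
          rw [← h3]
          exact Finset.sum_congr rfl fun j _ => by rw [map_smul, smul_eq_mul]
        rw [h4, mul_zero]
      have hnn : ∀ j ∈ range n, 0 ≤ τ * (d j * ψ (p j)) := by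
        intro j hj
        rw [Finset.mem_range] at hj
        by_cases hjG : j ∈ G
        · rw [h1 j hjG]
          simp
        · have h3 := h2 j hj hjG
          rw [g4 j hj hjG] at h3
          have h4 := hsgn j hj fun h => hjG (g1 h)
          have h5 := mul_nonneg h4 h3.le
          have h6 : τ * (-1) ^ (T.filter fun x => x < j).card * d j *
              ((-1) ^ (T.filter fun x => x < j).card * ψ (p j)) = τ * (d j * ψ (p j)) := by
            have h7 : ((-1 : ℝ)) ^ (T.filter fun x => x < j).card *
                (-1) ^ (T.filter fun x => x < j).card = 1 := by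
              rw [← mul_pow]
              norm_num
            linear_combination (τ * d j * ψ (p j)) * h7
          rwa [h6] at h5
      have hτ0 : τ ≠ 0 := by
        rcases hτ with h | h <;> rw [h] <;> norm_num
      have hz : ∀ j < n, j ∉ G → d j = 0 := by
        intro j hj hjG
        have h3 := (Finset.sum_eq_zero_iff_of_nonneg hnn).1 hsum j (Finset.mem_range.2 hj)
        have h4 := h2 j hj hjG
        have h5 : ψ (p j) ≠ 0 := by
          intro h6
          rw [h6, mul_zero] at h4
          exact lt_irrefl _ h4
        rcases mul_eq_zero.1 h3 with h6 | h6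
        · exact absurd h6 hτ0
        · exact (mul_eq_zero.1 h6).resolve_right h5
      -- the support has less than `r` elements
      obtain ⟨j0, hj0, hj1⟩ := hne
      have hjG : j0 ∈ G := by
        by_contra h3
        exact hj1 (hz j0 hj0 h3)
      obtain ⟨e, he, heG⟩ : ∃ e < n, e ∉ G := by
        by_contra hc
        push Not at hc
        have h3 : range n ⊆ G := fun x hx => hc x (Finset.mem_range.1 hx)
        have h4 := Finset.card_le_card h3
        rw [Finset.card_range] at h4
        omega
      have hGc : (insert e (G.erase j0)).card = q := by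
        rw [Finset.card_insert_of_notMem, Finset.card_erase_of_mem hjG, g2]
        · have : 0 < G.card := Finset.card_pos.2 ⟨j0, hjG⟩
          omega
        · intro h3
          exact heG (Finset.mem_of_mem_erase h3)
      obtain ⟨ψ', h3, h4⟩ := exists_fct hp _ hGc (by
        intro x hx
        rcases Finset.mem_insert.1 hx with h5 | h5
        · rw [h5]
          exact he
        · exact g3 x (Finset.mem_of_mem_erase h5))
      have h5 := h4 j0 hj0 (by
        rw [Finset.mem_insert, Finset.mem_erase]
        rintro (h6 | h6)
        · exact heG (h6 ▸ hjG)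
        · exact h6.1 rfl)
      have h6 : ψ' (p j0) ≠ 0 := by
        intro h7
        rw [h7, mul_zero] at h5
        exact lt_irrefl _ h5
      have h7 := congrArg ψ' hd
      rw [map_sum, map_zero, Finset.sum_eq_single j0] at h7
      · rw [map_smul, smul_eq_mul] at h7
        exact (mul_ne_zero hj1 h6) h7
      · intro j hj hjne
        rw [map_smul, smul_eq_mul]
        by_cases hjG' : j ∈ G
        · rw [h3 j (Finset.mem_insert_of_mem (Finset.mem_erase.2 ⟨hjne, hjG'⟩)), mul_zero]
        · rw [hz j (Finset.mem_range.1 hj) hjG', zero_mul]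
      · intro h8
        exact absurd (Finset.mem_range.2 hj0) h8

/-- **Dependencies change sign at least `r` times.** -/
theorem alternation {r n : ℕ} {p : ℕ → Fin r → ℝ} (hrn : r ≤ n) (hp : Cheb r n p)
    (d : ℕ → ℝ) (hd : ∑ j ∈ range n, d j • p j = 0) (hne : ∃ j < n, d j ≠ 0) :
    ∃ (i : ℕ → ℕ) (τ : ℝ), (τ = 1 ∨ τ = -1) ∧ (∀ m < r, i m < i (m + 1)) ∧ i r < n ∧
      ∀ m ≤ r, 0 < τ * (-1) ^ m * d (i m) := by
  obtain ⟨i, τ, h1, h2, h3, h4, _⟩ := chain_all hrn hp d hd hne r (le_refl _)
  exact ⟨i, τ, h1, h2, h3, h4⟩

end Pool.Agent.U23.TB
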