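import Pool.Agent.U23.TP.Defs

/-!
# Chebyshev systems with bounds: the class and the algorithm
-/

set_option autoImplicit false

namespace Pool.Agent.U23.TB

open Pool.Agent.H558R2 Pool.Agent.H622R3.SM Pool.Agent.W920.FC Pool.Agent.U23.LR Pool.Agent.U23.TP

/-- The systems `P x = c`, `l j ≤ x j`, `φ j * x j ≤ u j`, for real `r × n` matrices `P`,
`1 ≤ r ≤ n`, all of whose `r × r` minors are different from zero and have the same sign (the sign
of `s`), arbitrary real `c`, `l`, `u` and real `φ ≥ 0` (no upper bound for `x j` if `φ j = 0` and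
`u j = 0`), written as `P x ≥ c`, `-P x ≥ -c`, `x j ≥ l j`, `-φ j * x j ≥ - u j`. -/
def BoundedSystem : Pool.Agent.U23.LR.Class := fun m n A b =>
  ∃ (r : ℕ) (P : ℕ → ℕ → ℝ) (c l u φ : ℕ → ℝ) (s : ℝ), 1 ≤ r ∧ r ≤ n ∧ m = r + r + n + n ∧
    (∀ f : Fin r → ℕ, StrictMono f → (∀ i, f i < n) →
      0 < s * (Matrix.of fun (a : Fin r) (i : Fin r) => P a (f i)).det) ∧
    (∀ j < n, 0 ≤ φ j) ∧
    (∀ (i : Fin m) (j : Fin n), A i j = if (i : ℕ) < r then P i j
      else if (i : ℕ) < r + r then - P ((i : ℕ) - r) j
      else if (i : ℕ) < r + r + n then (if (i : ℕ) = r + r + j then 1 else 0)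
      else (if (i : ℕ) = r + r + n + j then - φ j else 0)) ∧
    ∀ i : Fin m, b i = if (i : ℕ) < r then c i else if (i : ℕ) < r + r then - c ((i : ℕ) - r)
      else if (i : ℕ) < r + r + n then l ((i : ℕ) - (r + r)) else - u ((i : ℕ) - (r + r + n))

/-- The status of `j`: `2` if `j` is one of the indices `I`, otherwise `0` (lower bound) or `1`
(upper bound), according to the parity of the number of indices greater than `j`. -/
def stat (r : ℕ) (I : List ℕ) (j : ℕ) : ℕ :=
  if ((List.range r).any fun l => decide (I.getD l 0 = j)) = true then 2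
  else (r + ((List.range r).filter fun l => decide (I.getD l 0 < j)).length) % 2

/-- The number of the column at the place `i`: `i` for the slack variable, `m + j` for the variable
number `j`. -/
def colN (m r n : ℕ) (I : List ℕ) (i : ℕ) : ℕ :=
  if i < r then m + I.getD i 0
  else if i < r + r then i
  else if i < r + r + n then (if stat r I (i - (r + r)) = 0 then m + (i - (r + r)) else i)
  else (if stat r I (i - (r + r + n)) = 1 then m + (i - (r + r + n)) else i)

/-- The columns, the column at the place `k` being replaced by the right-hand side. -/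
def gam2 (m n r : ℕ) (I : List ℕ) (k : ℕ) : List ℕ :=
  (List.range m).map fun i => if i = k then m + (n + n) else colN m r n I i

/-- The queries. -/
def qs2 (m n r : ℕ) (I : List ℕ) : List Qry :=
  (List.range (m + 1)).map fun k => qry m n (gam2 m n r I k)

/-- The rank. -/
def rk2 (m n : ℕ) : ℕ := (m - (n + n)) / 2

/-- The coordinate number `q` is negative. -/
def ng (m : ℕ) (o : List Outcome) (q : ℕ) : Bool :=
  !decide (o.getD q none = none) && !decide (o.getD q none = o.getD m none)

/-- The row which is tested for the index number `k`. -/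
def row (r n : ℕ) (I : List ℕ) (k : ℕ) : ℕ :=
  if (r + k) % 2 = 0 then r + r + I.getD k 0 else r + r + n + I.getD k 0

/-- The violated positions, in decreasing order. -/
def hit2 (m r n : ℕ) (I : List ℕ) (o : List Outcome) : List ℕ :=
  ((List.range r).filter fun k => ng m o (row r n I k)).reverse

/-- The next indices. -/
def nxt2 (m r n : ℕ) (I : List ℕ) (o : List Outcome) : List ℕ :=
  ((hit2 m r n I o).head?.map fun k => clip r n I (shiftL r k I)).getD I

/-- No slack variable is negative. -/
def ok2 (m r n : ℕ) (I : List ℕ) (o : List Outcome) : Bool :=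
  !decide (o.getD m none = none) &&
    (List.range m).all fun q => !decide (colN m r n I q = q) || !ng m o q

/-- A step. -/
def stp2 (m n : ℕ) (I : List ℕ) : TT (List ℕ) :=
  bnd (batch (qs2 m n (rk2 m n) I)) fun o => ret (nxt2 m (rk2 m n) n I o)

/-- The computation. -/
def tp2 (m n : ℕ) : TT Bool :=
  bnd (iter (stp2 m n) (rk2 m n * n) (List.range (rk2 m n))) fun I =>
    bnd (batch (qs2 m n (rk2 m n) I)) fun o => ret (ok2 m (rk2 m n) n I o)

end Pool.Agent.U23.TB
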