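import Pool.Agent.U23.TB.BVal

/-!
# The run on feasible instances
-/

set_option autoImplicit false

namespace Pool.Agent.U23.TB

open Pool.Agent.H558R2 Pool.Agent.H622R3.SM Pool.Agent.W920.FC Pool.Agent.U23.LR Pool.Agent.U23.TP

/-- The properties of the instance which are used. -/
structure Inst (m n r : ℕ) (A : Matrix (Fin m) (Fin n) ℝ) (b : Fin m → ℝ) (P : ℕ → ℕ → ℝ)
    (c l u φ : ℕ → ℝ) (p : ℕ → Fin r → ℝ) (c' : Fin r → ℝ) : Prop where
  hr : 1 ≤ r
  hrn : r ≤ n
  hm : m = r + r + n + n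
  hφ : ∀ j < n, 0 ≤ φ j
  hp : Cheb r n p
  top : ∀ (x : Fin n → ℝ) (q : Fin m), (q : ℕ) < r → A.mulVec x q = ∑ j : Fin n, P q j * x j
  btop : ∀ q : Fin m, (q : ℕ) < r → b q = c q
  mid : ∀ (x : Fin n → ℝ) (q : Fin m), r ≤ (q : ℕ) → (q : ℕ) < r + r →
    A.mulVec x q = - ∑ j : Fin n, P ((q : ℕ) - r) j * x j
  bmid : ∀ q : Fin m, r ≤ (q : ℕ) → (q : ℕ) < r + r → b q = - c ((q : ℕ) - r)
  lo : ∀ (x : Fin n → ℝ) (q : Fin m) (j : Fin n), (q : ℕ) = r + r + j → A.mulVec x q = x j
  blo : ∀ (q : Fin m) (j : Fin n), (q : ℕ) = r + r + j → b q = l j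
  up : ∀ (x : Fin n → ℝ) (q : Fin m) (j : Fin n), (q : ℕ) = r + r + n + j →
    A.mulVec x q = - (φ j * x j)
  bup : ∀ (q : Fin m) (j : Fin n), (q : ℕ) = r + r + n + j → b q = - u j
  vec0 : ∀ x : Fin n → ℝ, ∑ j : Fin n, x j • p j = 0 ↔ ∀ a < r, ∑ j : Fin n, P a j * x j = 0
  vec : ∀ x : Fin n → ℝ, ∑ j : Fin n, x j • p j = c' ↔ ∀ a < r, ∑ j : Fin n, P a j * x j = c a

section
variable {m n r : ℕ} {A : Matrix (Fin m) (Fin n) ℝ} {b : Fin m → ℝ} {P : ℕ → ℕ → ℝ}
  {c l u φ : ℕ → ℝ} {p : ℕ → Fin r → ℝ} {c' : Fin r → ℝ} (h : Inst m n r A b P c l u φ p c')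
include h

lemma pos_ex {I : List ℕ} (hI : Inc r n (fn I)) : ∃ pos : Fin n → Fin m,
    (∀ j, sig m r n I (pos j) = some j) ∧ ∀ q j, sig m r n I q = some j → q = pos j := by
  have hm := h.hm
  have h1 : ∀ j : Fin n, ∃ q : Fin m, sig m r n I q = some j := by
    intro j
    rcases stat_lt (r := r) (I := I) (j := j) with h2 | h2 | h2
    · refine ⟨⟨r + r + j, by omega⟩, ?_⟩
      rw [sig_iff hm hI, col_iff hm (by simp only; omega)]
      exact Or.inr (Or.inl ⟨j.2, rfl, h2⟩)
    · refine ⟨⟨r + r + n + j, by omega⟩, ?_⟩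
      rw [sig_iff hm hI, col_iff hm (by simp only; omega)]
      exact Or.inr (Or.inr ⟨j.2, rfl, h2⟩)
    · obtain ⟨k, hk, h3⟩ := stat_two.1 h2
      refine ⟨⟨k, by omega⟩, ?_⟩
      rw [sig_iff hm hI, col_iff hm (by simp only; omega)]
      exact Or.inl ⟨hk, h3⟩
  choose pos hpos using h1
  refine ⟨pos, hpos, fun q j hq => ?_⟩
  have h2 := hpos j
  rw [sig_iff hm hI, col_iff hm (pos j).2] at h2
  rw [sig_iff hm hI, col_iff hm q.2] at hq
  apply Fin.ext
  rcases h2 with ⟨h3, h4⟩ | ⟨_, h3, h4⟩ | ⟨_, h3, h4⟩ <;>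
  rcases hq with ⟨h5, h6⟩ | ⟨_, h5, h6⟩ | ⟨_, h5, h6⟩
  · exact hI.inj h5 h3 (by rw [h4, h6])
  · have := stat_two.2 ⟨_, h3, h4⟩
    omega
  · have := stat_two.2 ⟨_, h3, h4⟩
    omega
  · have := stat_two.2 ⟨_, h5, h6⟩
    omega
  · omega
  · omega
  · have := stat_two.2 ⟨_, h5, h6⟩
    omega
  · omega
  · omega

/-- the minor of a valid state is not zero -/
lemma det_ne {I : List ℕ} (hI : Inc r n (fn I)) (hV : ∀ j < n, stat r I j = 1 → 0 < φ j) :
    valM A b r I m ≠ 0 := by
  classical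
  have hm := h.hm
  obtain ⟨pos, hp1, hp2⟩ := pos_ex h hI
  rw [valM_m A b hm hI]
  refine dd_ne A b hp1 hp2 fun x hx => ?_
  have hq : ∀ (q : Fin m) (j : Fin n), colN m r n I q = m + j → A.mulVec x q = 0 := by
    intro q j h1
    rw [← sig_iff hm hI] at h1
    rw [hp2 q j h1]
    exact hx j
  have h0 : ∀ j : Fin n, stat r I j ≠ 2 → x j = 0 := by
    intro j hj
    rcases stat_lt (r := r) (I := I) (j := j) with h2 | h2 | h2
    · have h3 := hq ⟨r + r + j, by omega⟩ j ((col_iff hm (by simp only; omega)).2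
        (Or.inr (Or.inl ⟨j.2, rfl, h2⟩)))
      rwa [h.lo x _ j rfl] at h3
    · have h3 := hq ⟨r + r + n + j, by omega⟩ j ((col_iff hm (by simp only; omega)).2
        (Or.inr (Or.inr ⟨j.2, rfl, h2⟩)))
      rw [h.up x _ j rfl, neg_eq_zero] at h3
      exact (mul_eq_zero.1 h3).resolve_left (hV j j.2 h2).ne'
    · exact absurd h2 hj
  set y : Fin r → ℝ := fun k => x ⟨fn I k, hI.lt k k.2⟩ with hy
  have hxy : ∀ j : Fin n, x j = ∑ i : Fin r, if fn I i = j then y i else 0 := by
    intro j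
    by_cases hj : ∃ k < r, fn I k = j
    · obtain ⟨k, hk, hkj⟩ := hj
      rw [Finset.sum_eq_single (⟨k, hk⟩ : Fin r)]
      · rw [if_pos hkj]
        simp only [hy]
        congr 1
        exact Fin.ext hkj.symm
      · intro i _ hi
        rw [if_neg]
        intro h3
        exact hi (Fin.ext (hI.inj i.2 hk (h3.trans hkj.symm)))
      · intro h3
        exact absurd (Finset.mem_univ _) h3
    · rw [h0 j fun h3 => hj (stat_two.1 h3)]
      symm
      refine Finset.sum_eq_zero fun i _ => ?_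
      rw [if_neg]
      intro h3
      exact hj ⟨i, i.2, h3⟩
  have h1 : ∑ j : Fin n, x j • p j = 0 := by
    rw [h.vec0]
    intro a ha
    have h3 := hq ⟨a, by omega⟩ ⟨fn I a, hI.lt a ha⟩ ((col_iff hm (by simp only; omega)).2
      (Or.inl ⟨ha, rfl⟩))
    rwa [h.top x _ ha] at h3
  have h2 : ∑ i : Fin r, y i • p (fn I i) = 0 := by
    rw [← sum_pick (fn I) (fun i hi => hI.lt i hi) y p, ← h1]
    exact Finset.sum_congr rfl fun j _ => by rw [hxy j]
  have h3 : (MI p (fn I)).mulVec y = 0 := by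
    funext a
    have h4 := congrFun h2 a
    rw [Finset.sum_apply] at h4
    simp only [Pi.smul_apply, smul_eq_mul] at h4
    simp only [Matrix.mulVec, dotProduct, MI, Matrix.of_apply]
    rw [← h4]
    exact Finset.sum_congr rfl fun i _ => mul_comm _ _
  have h4 := Matrix.eq_zero_of_mulVec_eq_zero (det_pos h.hp hI).ne' h3
  funext j
  rw [hxy j, h4]
  simp

omit h in
/-- the basic point with given nonbasic coordinates -/
lemma canon (hp : Cheb r n p) {I : List ℕ} (hI : Inc r n (fn I)) (y : ℕ → ℝ) :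
    ∃ x : Fin n → ℝ, (∀ j : Fin n, stat r I j ≠ 2 → x j = y j) ∧ ∑ j : Fin n, x j • p j = c' := by
  classical
  have hd := det_pos hp hI
  set w : Fin r → ℝ := c' - ∑ j : Fin n, (if stat r I j = 2 then 0 else y j) • p j with hw
  refine ⟨fun j => (if stat r I j = 2 then 0 else y j) +
    ∑ i : Fin r, if fn I i = j then cf p (fn I) w i / (MI p (fn I)).det else 0, fun j hj => ?_, ?_⟩
  · simp only
    rw [if_neg hj]
    have h3 : (∑ i : Fin r, if fn I i = j then cf p (fn I) w i / (MI p (fn I)).det else 0) = 0 := by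
      refine Finset.sum_eq_zero fun i _ => ?_
      rw [if_neg]
      intro h3
      exact hj (stat_two.2 ⟨i, i.2, h3⟩)
    rw [h3, add_zero]
  · simp only [add_smul, Finset.sum_add_distrib]
    rw [sum_pick (fn I) (fun i hi => hI.lt i hi) _ p]
    have h1 : ∑ i : Fin r, (cf p (fn I) w i / (MI p (fn I)).det) • p (fn I i) = w := by
      have h2 := cf_sum p (fn I) w
      have h3 : w = ((MI p (fn I)).det)⁻¹ • ∑ i : Fin r, cf p (fn I) w i • p (fn I i) := by
        rw [h2, smul_smul, inv_mul_cancel₀ hd.ne', one_smul]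
      conv_rhs => rw [h3]
      rw [Finset.smul_sum]
      refine Finset.sum_congr rfl fun i _ => ?_
      rw [smul_smul]
      congr 1
      ring
    rw [h1, hw]
    simp only [add_sub_cancel]

/-- the position `k` is violated by `x` -/
def Viol (r : ℕ) (l u φ : ℕ → ℝ) (I : List ℕ) (x : ℕ → ℝ) (k : ℕ) : Prop :=
  if (r + k) % 2 = 0 then x (fn I k) < l (fn I k) else u (fn I k) < φ (fn I k) * x (fn I k)

/-- the point of a valid state -/
lemma point {I : List ℕ} (hI : Inc r n (fn I)) (hV : ∀ j < n, stat r I j = 1 → 0 < φ j) :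
    ∃ x : ℕ → ℝ, (∀ j < n, stat r I j = 0 → x j = l j) ∧
      (∀ j < n, stat r I j = 1 → φ j * x j = u j) ∧ ∑ j : Fin n, x j • p j = c' ∧
      (∀ q : Fin m, colN m r n I q = q → (valM A b r I q * valM A b r I m < 0 ↔
        A.mulVec (fun j => x j) q - b q < 0)) ∧
      ∀ k < r, ng m (outs2 A b r I) (row r n I k) = true ↔ Viol r l u φ I x k := by
  have hm := h.hm
  have hD := det_ne h hI hV
  obtain ⟨pos, hp1, hp2⟩ := pos_ex h hI
  obtain ⟨x0, hx1, hx2⟩ := canon (c' := c') h.hp hI fun j =>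
    if stat r I j = 0 then l j else u j / φ j
  set x : ℕ → ℝ := fun j => if hj : j < n then x0 ⟨j, hj⟩ else 0 with hx
  have hxx : (fun j : Fin n => x j) = x0 := by
    funext j
    simp only [hx, dif_pos j.2]
  have hxj : ∀ j : Fin n, x j = x0 j := fun j => congrFun hxx j
  have e0 : ∀ j < n, stat r I j = 0 → x j = l j := by
    intro j hj h1
    have h2 := hx1 ⟨j, hj⟩ (by simp only; omega)
    simp only [h1, if_true] at h2
    rw [← h2]
    exact hxj ⟨j, hj⟩
  have e1 : ∀ j < n, stat r I j = 1 → φ j * x j = u j := by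
    intro j hj h1
    have h2 := hx1 ⟨j, hj⟩ (by simp only; omega)
    simp only [h1, one_ne_zero, if_false] at h2
    have h3 : x j = u j / φ j := by
      rw [← h2]
      exact hxj ⟨j, hj⟩
    rw [h3]
    have h4 := (hV j hj h1).ne'
    field_simp
  have hsum : ∑ j : Fin n, x j • p j = c' := by
    rw [← hx2]
    exact Finset.sum_congr rfl fun j _ => by rw [hxj]
  have hrow : ∀ q : Fin m, colN m r n I q = q → (valM A b r I q * valM A b r I m < 0 ↔
      A.mulVec (fun j => x j) q - b q < 0) := by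
    intro q hq
    have hbq : ∀ j, A.mulVec x0 (pos j) = b (pos j) := by
      intro j
      have h1 := hp1 j
      rw [sig_iff hm hI, col_iff hm (pos j).2] at h1
      rcases h1 with ⟨h3, h4⟩ | ⟨h2, h3, h4⟩ | ⟨h2, h3, h4⟩
      · rw [h.top _ _ h3, h.btop _ h3]
        exact (h.vec x0).1 hx2 _ h3
      · rw [h.lo _ _ j h3, h.blo _ j h3, ← hxj]
        exact e0 j j.2 h4
      · rw [h.up _ _ j h3, h.bup _ j h3, ← hxj, e1 j j.2 h4]
    have h1 := dd_val A b hp1 hp2 hbq (sig_none hq)
    rw [← valM_q A b hm hI, ← valM_m A b hm hI] at h1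
    rw [h1, hxx]
    have h2 : valM A b r I m * (A.mulVec x0 q - b q) * valM A b r I m =
        (valM A b r I m * valM A b r I m) * (A.mulVec x0 q - b q) := by ring
    rw [h2]
    constructor
    · intro h3
      by_contra h4
      exact absurd (mul_nonneg (mul_self_nonneg (valM A b r I m)) (not_lt.1 h4)) (not_le.2 h3)
    · intro h3
      exact mul_neg_of_pos_of_neg (mul_self_pos.2 hD) h3
  refine ⟨x, e0, e1, hsum, hrow, fun k hk => ?_⟩
  have hkn := hI.lt k hk
  have hst : stat r I (fn I k) = 2 := stat_two.2 ⟨k, hk, rfl⟩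
  unfold row Viol
  by_cases hpar : (r + k) % 2 = 0
  · rw [if_pos hpar, if_pos hpar]
    show ng m (outs2 A b r I) (r + r + fn I k) = true ↔ _
    have hq : colN m r n I (r + r + fn I k) = r + r + fn I k := by
      unfold colN
      rw [if_neg (by omega), if_neg (by omega), if_pos (by omega),
        show r + r + fn I k - (r + r) = fn I k by omega, if_neg (by omega)]
    rw [ng_iff A b hD (by omega)]
    have h1 := hrow ⟨r + r + fn I k, by omega⟩ hq
    rw [h1, h.lo _ _ ⟨fn I k, hkn⟩ rfl, h.blo _ ⟨fn I k, hkn⟩ rfl, sub_neg]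
  · rw [if_neg hpar, if_neg hpar]
    show ng m (outs2 A b r I) (r + r + n + fn I k) = true ↔ _
    have hq : colN m r n I (r + r + n + fn I k) = r + r + n + fn I k := by
      unfold colN
      rw [if_neg (by omega), if_neg (by omega), if_neg (by omega),
        show r + r + n + fn I k - (r + r + n) = fn I k by omega, if_neg (by omega)]
    rw [ng_iff A b hD (by omega)]
    have h1 := hrow ⟨r + r + n + fn I k, by omega⟩ hq
    rw [h1, h.up _ _ ⟨fn I k, hkn⟩ rfl, h.bup _ ⟨fn I k, hkn⟩ rfl]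
    constructor
    · intro h2
      simp only at h2
      linarith
    · intro h2
      simp only
      linarith

omit h in
lemma hit2_some {I : List ℕ} {o : List Outcome} {k : ℕ} (hk : (hit2 m r n I o).head? = some k) :
    (k < r ∧ ng m o (row r n I k) = true) ∧
      ∀ k', k < k' → k' < r → ¬ ng m o (row r n I k') = true := by
  have hmem : ∀ x, x ∈ hit2 m r n I o ↔ x < r ∧ ng m o (row r n I x) = true := by
    intro x
    unfold hit2
    rw [List.mem_reverse, List.mem_filter, List.mem_range]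
  have hpw : (hit2 m r n I o).Pairwise (fun a b => b < a) := by
    unfold hit2
    rw [List.pairwise_reverse]
    exact List.Pairwise.filter _ List.pairwise_lt_range
  cases hl : hit2 m r n I o with
  | nil =>
    rw [hl] at hk
    exact absurd hk (by simp)
  | cons a t =>
    rw [hl] at hk hpw
    have ha : a = k := by simpa using hk
    subst ha
    refine ⟨(hmem a).1 (by rw [hl]; exact List.mem_cons_self ..), fun k' h1 h2 h4 => ?_⟩
    have h5 := (hmem k').2 ⟨h2, h4⟩
    rw [hl, List.mem_cons] at h5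
    rcases h5 with h5 | h5
    · omega
    · have := (List.pairwise_cons.1 hpw).1 k' h5
      omega

omit h in
lemma hit2_none {I : List ℕ} {o : List Outcome} (hn : (hit2 m r n I o).head? = none) {k : ℕ}
    (hk : k < r) : ¬ ng m o (row r n I k) = true := by
  intro h1
  have h2 : k ∈ hit2 m r n I o := by
    unfold hit2
    rw [List.mem_reverse, List.mem_filter, List.mem_range]
    exact ⟨hk, h1⟩
  rw [List.head?_eq_none_iff] at hn
  rw [hn] at h2
  exact absurd h2 (by simp)

/-- the comparison, for a state all of whose positions from `K` on are not violated -/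
lemma cmp {z : ℕ → ℝ} (hz1 : ∀ j < n, l j ≤ z j) (hz2 : ∀ j < n, φ j * z j ≤ u j)
    (hz3 : c' = ∑ j ∈ Finset.range n, z j • p j) {J : ℕ → ℕ}
    (hT : ∀ m ≤ r, ∀ j < n, Gap r J m j → ¬ Qp r l u φ z m j)
    {I : List ℕ} (hI : Inc r n (fn I)) (hle : ∀ l < r, fn I l ≤ J l)
    (hV : ∀ j < n, stat r I j = 1 → 0 < φ j) {x : ℕ → ℝ}
    (hx0 : ∀ j < n, stat r I j = 0 → x j = l j) (hx1 : ∀ j < n, stat r I j = 1 → φ j * x j = u j)
    (hxs : ∑ j : Fin n, x j • p j = c') {K : ℕ} (hKr : K ≤ r)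
    (hno : ∀ k, K ≤ k → k < r → ¬ Viol r l u φ I x k)
    (hK : K = 0 ∨ (1 ≤ K ∧ fn I (K - 1) = J (K - 1) ∧ Viol r l u φ I x (K - 1))) :
    ∀ j < n, z j - x j = 0 := by
  have hpar : ∀ a : ℕ, ((r + a) % 2 = 0 → (-1 : ℝ) ^ (r + a) = 1) ∧
      (¬ (r + a) % 2 = 0 → (-1 : ℝ) ^ (r + a) = -1) := by
    intro a
    constructor
    · intro h1
      rw [neg_one_pow_parity (b := 0) (by omega), pow_zero]
    · intro h1
      rw [neg_one_pow_parity (b := 1) (by omega), pow_one]
  have hQ : ∀ a j, j < n → 0 < (-1 : ℝ) ^ (r + a) * (z j - x j) →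
      (if (r + a) % 2 = 0 then l j ≤ x j else φ j * x j ≤ u j) → Qp r l u φ z a j := by
    intro a j hj h1 h2
    unfold Qp
    by_cases h3 : (r + a) % 2 = 0
    · rw [if_pos h3] at h2 ⊢
      rw [(hpar a).1 h3] at h1
      linarith
    · rw [if_neg h3] at h2 ⊢
      rw [(hpar a).2 h3] at h1
      rcases (h.hφ j hj).eq_or_lt with h4 | h4
      · exact Or.inl h4.symm
      · right
        have h5 : z j < x j := by linarith
        have h6 := mul_lt_mul_of_pos_left h5 h4
        linarith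
  refine compare (K := K) h.hrn h.hp hle (d := fun j => z j - x j) ?_ ?_ ?_ ?_ hT hKr ?_
  · simp only [sub_smul, Finset.sum_sub_distrib]
    rw [← hz3, Finset.sum_range, hxs, sub_self]
  · intro a ha j hj hg
    have h1 := stat_gap hI ha hg
    by_cases h3 : (r + a) % 2 = 0
    · rw [(hpar a).1 h3, one_mul, hx0 j hj (by omega)]
      linarith [hz1 j hj]
    · have h2 : stat r I j = 1 := by omega
      rw [(hpar a).2 h3]
      have h4 := hV j hj h2
      have h5 := hx1 j hj h2
      have h6 := hz2 j hj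
      have h7 : z j ≤ x j := by
        by_contra h8
        have h9 := mul_lt_mul_of_pos_left (not_le.1 h8) h4
        linarith
      linarith
  · intro a ha j hj hg hpos
    refine hQ a j hj hpos ?_
    have h1 := stat_gap hI ha hg
    split_ifs with h3
    · rw [hx0 j hj (by omega)]
    · rw [hx1 j hj (by omega)]
  · intro a hKa har hpos
    refine hQ a _ (hI.lt a har) hpos ?_
    have h1 := hno a hKa har
    unfold Viol at h1
    split_ifs at h1 ⊢ with h3
    · exact not_lt.1 h1
    · exact not_lt.1 h1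
  · rcases hK with h1 | ⟨h1, h2, h3⟩
    · exact Or.inl h1
    · refine Or.inr ⟨h1, h2, ?_⟩
      have hj := hI.lt (K - 1) (by omega)
      unfold Viol at h3
      split_ifs at h3 with h4
      · rw [(hpar _).1 h4, one_mul]
        linarith [hz1 _ hj]
      · rw [(hpar _).2 h4]
        have h5 := hz2 _ hj
        have h6 := h.hφ _ hj
        have h7 : z (fn I (K - 1)) < x (fn I (K - 1)) := by
          by_contra h8
          have h9 := mul_le_mul_of_nonneg_left (not_lt.1 h8) h6
          linarith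
        linarith

end

end Pool.Agent.U23.TB
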