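import Pool.Agent.U23.TB.BFeas

/-!
# Correctness
-/

set_option autoImplicit false

namespace Pool.Agent.U23.TB

open Pool.Agent.H558R2 Pool.Agent.H622R3.SM Pool.Agent.W920.FC Pool.Agent.U23.LR Pool.Agent.U23.TP

lemma shift_le2 {r n k : ℕ} {J : ℕ → ℕ} (hJ : Inc r n J) {L : List ℕ}
    (hle : ∀ l < r, fn L l ≤ J l) (hk2 : fn L k < J k) :
    ∀ l < r, fn (shiftL r k L) l ≤ J l := by
  intro l hl
  simp only [fn] at hk2 ⊢
  rw [shift_getD hl]
  split_ifs with h1
  · have h2 := hJ.add_le k (l - k) (by omega)
    rw [show k + (l - k) = l by omega] at h2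
    omega
  · exact hle l hl

section
variable {m n r : ℕ} {A : Matrix (Fin m) (Fin n) ℝ} {b : Fin m → ℝ}

lemma nxt2_inc {L : List ℕ} (hL : Inc r n (fn L)) (o : List Outcome) :
    Inc r n (fn (nxt2 m r n L o)) := by
  unfold nxt2
  cases h : (hit2 m r n L o).head? with
  | none => exact hL
  | some k =>
    show Inc r n (fn (clip r n L (shiftL r k L)))
    unfold clip
    split_ifs with h1
    · exact shift_inc hL h1
    · exact hL

lemma range_inc (hrn : r ≤ n) : Inc r n (fn (List.range r)) := by
  have h1 : ∀ l < r, fn (List.range r) l = l := by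
    intro l hl
    simp only [fn]
    rw [List.getD_eq_getElem?_getD, List.getElem?_range hl]
    rfl
  refine ⟨fun l hl => ?_, fun l hl => ?_⟩
  · rw [h1 l (by omega), h1 (l + 1) hl]
    omega
  · rw [h1 l hl]
    omega

lemma st2_inc (hrn : r ≤ n) (i : ℕ) : Inc r n (fn (st2 A b r i)) := by
  induction i with
  | zero => exact range_inc hrn
  | succ i ih => exact nxt2_inc ih _

lemma nxt2_tot (L : List ℕ) (o : List Outcome) :
    nxt2 m r n L o = L ∨ tot r L + 1 ≤ tot r (nxt2 m r n L o) := by
  unfold nxt2
  cases h : (hit2 m r n L o).head? with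
  | none => exact Or.inl rfl
  | some k =>
    show clip r n L (shiftL r k L) = L ∨ tot r L + 1 ≤ tot r (clip r n L (shiftL r k L))
    unfold clip
    split_ifs with h1
    · exact Or.inr (shift_tot (hit2_some h).1.1)
    · exact Or.inl rfl

lemma st2_fixed (hr : 1 ≤ r) (hrn : r ≤ n) :
    nxt2 m r n (st2 A b r (r * n)) (outs2 A b r (st2 A b r (r * n))) = st2 A b r (r * n) := by
  have key : ∀ i, nxt2 m r n (st2 A b r i) (outs2 A b r (st2 A b r i)) = st2 A b r i ∨
      i ≤ tot r (st2 A b r i) := by
    intro i
    induction i with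
    | zero => exact Or.inr (Nat.zero_le _)
    | succ i ih =>
      have e : st2 A b r (i + 1) = nxt2 m r n (st2 A b r i) (outs2 A b r (st2 A b r i)) := rfl
      rcases nxt2_tot (m := m) (r := r) (n := n) (st2 A b r i) (outs2 A b r (st2 A b r i))
        with h1 | h1
      · left
        rw [e, h1]
        exact h1
      · rcases ih with h2 | h2
        · left
          rw [e, h2]
          exact h2
        · right
          rw [e]
          omega
  rcases key (r * n) with h1 | h1
  · exact h1
  · exfalso
    have h2 : tot r (st2 A b r (r * n)) ≤ r * (n - 1) := by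
      unfold Pool.Agent.U23.TP.tot
      have h3 := Finset.sum_le_card_nsmul (Finset.range r) (fn (st2 A b r (r * n))) (n - 1)
        fun l hl => by
        have := (st2_inc (A := A) (b := b) hrn (r * n)).lt l (Finset.mem_range.1 hl)
        omega
      rw [Finset.card_range, smul_eq_mul] at h3
      exact h3
    have h3 : r * (n - 1) < r * n := Nat.mul_lt_mul_of_pos_left (by omega) (by omega)
    omega

variable {P : ℕ → ℕ → ℝ} {c l u φ : ℕ → ℝ} {p : ℕ → Fin r → ℝ} {c' : Fin r → ℝ}

/-- **Correctness.** -/
theorem ok2_iff (h : Inst m n r A b P c l u φ p c') :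
    ok2 m r n (st2 A b r (r * n)) (outs2 A b r (st2 A b r (r * n))) = true ↔
      ∃ x : Fin n → ℝ, b ≤ A.mulVec x := by
  have hm := h.hm
  have hrn := h.hrn
  constructor
  · exact ok2_sound A b hm (st2_inc hrn _)
  · rintro ⟨x, hx⟩
    have hxl : ∀ j : Fin n, l j ≤ x j := by
      intro j
      have h1 := hx ⟨r + r + j, by omega⟩
      rwa [h.lo x _ j rfl, h.blo _ j rfl] at h1
    have hxu : ∀ j : Fin n, φ j * x j ≤ u j := by
      intro j
      have h1 := hx ⟨r + r + n + j, by omega⟩
      rw [h.up x _ j rfl, h.bup _ j rfl] at h1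
      linarith
    have hxc : ∑ j : Fin n, x j • p j = c' := by
      rw [h.vec]
      intro a ha
      have h1 := hx ⟨a, by omega⟩
      have h2 := hx ⟨r + a, by omega⟩
      rw [h.top x _ ha, h.btop _ ha] at h1
      rw [h.mid x _ (Nat.le_add_right r a) (by simp only; omega),
        h.bmid _ (Nat.le_add_right r a) (by simp only; omega)] at h2
      simp only [Nat.add_sub_cancel_left] at h2
      simp only at h1
      linarith
    obtain ⟨z, hz1, hz2, hz3, J, hJ, hT⟩ :=
      exists_target hrn h.hp c' l u φ h.hφ x hxl hxu hxc.symm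
    have hhit : ∀ I : List ℕ, Inc r n (fn I) → (∀ l < r, fn I l ≤ J l) →
        (∀ j < n, stat r I j = 1 → 0 < φ j) → ∀ k,
        (hit2 m r n I (outs2 A b r I)).head? = some k →
        k < r ∧ fn I k < J k ∧ ((r + k) % 2 = 1 → 0 < φ (fn I k)) := by
      intro I hI hle hV k hk
      obtain ⟨⟨h1, h2⟩, h3⟩ := hit2_some hk
      obtain ⟨y, y0, y1, y2, y3, y4⟩ := point h hI hV
      rw [y4 k h1] at h2
      have hkn := hI.lt k h1
      refine ⟨h1, ?_, fun hodd => ?_⟩
      · refine lt_of_le_of_ne (hle k h1) fun heq => ?_
        have h5 := cmp h hz1 hz2 hz3 hT hI hle hV y0 y1 y2 (K := k + 1) (by omega)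
          (fun k' hk1 hk2 => by
            rw [← y4 k' hk2]
            exact h3 k' (by omega) hk2) (Or.inr ⟨by omega, by rw [Nat.add_sub_cancel]; exact heq,
              by rw [Nat.add_sub_cancel]; exact h2⟩)
        have h6 := h5 _ hkn
        have h7 : z (fn I k) = y (fn I k) := by linarith
        unfold Viol at h2
        split_ifs at h2 with h8
        · have := hz1 _ hkn
          linarith
        · have := hz2 _ hkn
          rw [h7] at this
          linarith
      · unfold Viol at h2
        rw [if_neg (by omega)] at h2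
        rcases (h.hφ _ hkn).eq_or_lt with h8 | h8
        · exfalso
          have := hz2 _ hkn
          rw [← h8, zero_mul] at h2 this
          linarith
        · exact h8
    have hinv : ∀ i, (∀ l < r, fn (st2 A b r i) l ≤ J l) ∧
        ∀ j < n, stat r (st2 A b r i) j = 1 → 0 < φ j := by
      intro i
      induction i with
      | zero =>
        have h1 : ∀ l < r, fn (List.range r) l = l := by
          intro l hl
          simp only [fn]
          rw [List.getD_eq_getElem?_getD, List.getElem?_range hl]
          rfl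
        refine ⟨fun l hl => ?_, fun j hj hs => ?_⟩
        · show fn (List.range r) l ≤ J l
          rw [h1 l hl]
          have := hJ.add_le 0 l (by omega)
          rw [Nat.zero_add] at this
          omega
        · exfalso
          have hs' : stat r (List.range r) j = 1 := hs
          rcases Nat.lt_or_ge j r with h2 | h2
          · have := stat_two.2 ⟨j, h2, h1 j h2⟩
            omega
          · have h3 := stat_gap (range_inc hrn) (le_refl r) (j := j) ⟨by
              rcases Nat.eq_zero_or_pos r with h4 | h4
              · exact Or.inl h4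
              · right
                rw [h1 (r - 1) (by omega)]
                omega, Or.inl rfl⟩
            omega
      | succ i ih =>
        have hI := st2_inc (A := A) (b := b) hrn i
        show (∀ l < r, fn (nxt2 m r n (st2 A b r i) (outs2 A b r (st2 A b r i))) l ≤ J l) ∧
          ∀ j < n, stat r (nxt2 m r n (st2 A b r i) (outs2 A b r (st2 A b r i))) j = 1 → 0 < φ j
        unfold nxt2
        cases hk : (hit2 m r n (st2 A b r i) (outs2 A b r (st2 A b r i))).head? with
        | none => exact ih
        | some k =>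
          obtain ⟨h1, h2, h3⟩ := hhit _ hI ih.1 ih.2 k hk
          have h4 := shift_le2 hJ ih.1 h2
          have h5 : (shiftL r k (st2 A b r i)).getD (r - 1) 0 < n :=
            lt_of_le_of_lt (h4 (r - 1) (by omega)) (hJ.lt (r - 1) (by omega))
          show (∀ l < r, fn (clip r n _ (shiftL r k (st2 A b r i))) l ≤ J l) ∧
            ∀ j < n, stat r (clip r n _ (shiftL r k (st2 A b r i))) j = 1 → 0 < φ j
          unfold clip
          rw [if_pos h5]
          refine ⟨h4, fun j hj hs => ?_⟩
          rcases stat_shift hI (shift_inc hI h5) hs with h6 | ⟨h6, h7⟩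
          · exact ih.2 j hj h6
          · rw [h6]
            exact h3 h7
    have hI := st2_inc (A := A) (b := b) hrn (r * n)
    obtain ⟨hle, hV⟩ := hinv (r * n)
    have hfix := st2_fixed (A := A) (b := b) h.hr hrn
    have hnone : (hit2 m r n (st2 A b r (r * n)) (outs2 A b r (st2 A b r (r * n)))).head? =
        none := by
      cases hk : (hit2 m r n (st2 A b r (r * n)) (outs2 A b r (st2 A b r (r * n)))).head? with
      | none => rfl
      | some k =>
        exfalso
        obtain ⟨h1, h2, _⟩ := hhit _ hI hle hV k hk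
        have h4 := shift_le2 hJ hle h2
        have h5 : (shiftL r k (st2 A b r (r * n))).getD (r - 1) 0 < n :=
          lt_of_le_of_lt (h4 (r - 1) (by omega)) (hJ.lt (r - 1) (by omega))
        have h8 : nxt2 m r n (st2 A b r (r * n)) (outs2 A b r (st2 A b r (r * n))) =
            shiftL r k (st2 A b r (r * n)) := by
          unfold nxt2
          rw [hk]
          show clip r n _ _ = _
          unfold clip
          rw [if_pos h5]
        rw [h8] at hfix
        have h9 := shift_tot (r := r) (L := st2 A b r (r * n)) h1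
        rw [hfix] at h9
        omega
    have hD := det_ne h hI hV
    obtain ⟨y, y0, y1, y2, y3, y4⟩ := point h hI hV
    have h5 := cmp h hz1 hz2 hz3 hT hI hle hV y0 y1 y2 (K := 0) (Nat.zero_le _)
      (fun k' _ hk2 => by
        rw [← y4 k' hk2]
        exact hit2_none hnone hk2) (Or.inl rfl)
    have hyz : ∀ j < n, y j = z j := fun j hj => by
      have := h5 j hj
      linarith
    unfold ok2
    rw [Bool.and_eq_true, Bool.not_eq_true', decide_eq_false_iff_not,
      outs2_getD A b r _ (le_refl m), signOut_none, List.all_eq_true]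
    refine ⟨hD, fun q hq => ?_⟩
    rw [List.mem_range] at hq
    rw [Bool.or_eq_true, Bool.not_eq_true', decide_eq_false_iff_not, Bool.not_eq_true']
    by_cases hcol : colN m r n (st2 A b r (r * n)) q = q
    · right
      rw [← Bool.not_eq_true, ng_iff A b hD hq, y3 ⟨q, hq⟩ hcol, not_lt, sub_nonneg]
      have hyc := (h.vec fun j => y j).1 y2
      rcases Nat.lt_or_ge q r with h6 | h6
      · rw [h.top _ _ h6, h.btop _ h6]
        exact (hyc q h6).ge
      · rcases Nat.lt_or_ge q (r + r) with h7 | h7
        · rw [h.mid _ _ h6 h7, h.bmid _ h6 h7]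
          have := hyc (q - r) (by omega)
          simp only
          rw [this]
        · rcases Nat.lt_or_ge q (r + r + n) with h8 | h8
          · have hj : q - (r + r) < n := by omega
            rw [h.lo _ _ ⟨q - (r + r), hj⟩ (by simp only; omega),
              h.blo _ ⟨q - (r + r), hj⟩ (by simp only; omega)]
            simp only
            rw [hyz _ hj]
            exact hz1 _ hj
          · have hj : q - (r + r + n) < n := by omega
            rw [h.up _ _ ⟨q - (r + r + n), hj⟩ (by simp only; omega),
              h.bup _ ⟨q - (r + r + n), hj⟩ (by simp only; omega)]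
            simp only
            rw [hyz _ hj]
            have := hz2 _ hj
            linarith
    · left
      exact hcol

end

/-- making all minors positive -/
lemma flip {r n : ℕ} (hr : 1 ≤ r) {P : ℕ → ℕ → ℝ} {s : ℝ}
    (hmin : ∀ f : Fin r → ℕ, StrictMono f → (∀ i, f i < n) →
      0 < s * (Matrix.of fun (a : Fin r) (i : Fin r) => P a (f i)).det) :
    ∃ ε : Fin r → ℝ, (∀ a, ε a ≠ 0) ∧ Cheb r n fun j a => ε a * P a j := by
  classical
  rcases lt_or_ge 0 s with hs | hs
  · refine ⟨fun _ => 1, fun _ => one_ne_zero, fun f hf hfn => ?_⟩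
    have h1 := hmin f hf hfn
    simp only [one_mul]
    exact pos_of_mul_pos_right h1 hs.le
  · refine ⟨fun a => if a = ⟨0, hr⟩ then -1 else 1, fun a => ?_, fun f hf hfn => ?_⟩
    · beta_reduce
      split_ifs <;> norm_num
    · have h1 := hmin f hf hfn
      have h2 := Matrix.det_mul_column (fun a : Fin r => if a = ⟨0, hr⟩ then (-1 : ℝ) else 1)
        (Matrix.of fun (a : Fin r) (i : Fin r) => P a (f i))
      have h3 : ∏ a : Fin r, (if a = ⟨0, hr⟩ then (-1 : ℝ) else 1) = -1 := by
        rw [Finset.prod_ite_eq']
        simp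
      rw [h3] at h2
      simp only [Matrix.of_apply] at h2
      rw [h2]
      by_contra h4
      have h5 : 0 ≤ (Matrix.of fun (a : Fin r) (i : Fin r) => P a (f i)).det := by linarith
      have h6 := mul_nonneg (neg_nonneg.2 hs) h5
      linarith

/-- the instances of the class -/
lemma inst_of {m n r : ℕ} {A : Matrix (Fin m) (Fin n) ℝ} {b : Fin m → ℝ} {P : ℕ → ℕ → ℝ}
    {c l u φ : ℕ → ℝ} {s : ℝ} (hr : 1 ≤ r) (hrn : r ≤ n) (hm : m = r + r + n + n)
    (hmin : ∀ f : Fin r → ℕ, StrictMono f → (∀ i, f i < n) →
      0 < s * (Matrix.of fun (a : Fin r) (i : Fin r) => P a (f i)).det)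
    (hφ : ∀ j < n, 0 ≤ φ j)
    (hA : ∀ (i : Fin m) (j : Fin n), A i j = if (i : ℕ) < r then P i j
      else if (i : ℕ) < r + r then - P ((i : ℕ) - r) j
      else if (i : ℕ) < r + r + n then (if (i : ℕ) = r + r + j then 1 else 0)
      else (if (i : ℕ) = r + r + n + j then - φ j else 0))
    (hb : ∀ i : Fin m, b i = if (i : ℕ) < r then c i else if (i : ℕ) < r + r then - c ((i : ℕ) - r)
      else if (i : ℕ) < r + r + n then l ((i : ℕ) - (r + r)) else - u ((i : ℕ) - (r + r + n))) :
    ∃ (p : ℕ → Fin r → ℝ) (c' : Fin r → ℝ), Inst m n r A b P c l u φ p c' := by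
  obtain ⟨ε, hε, hp⟩ := flip hr hmin
  have hvec : ∀ (x : Fin n → ℝ) (a : Fin r), (∑ j : Fin n, x j • fun a : Fin r => ε a * P a j) a =
      ε a * ∑ j : Fin n, P a j * x j := by
    intro x a
    rw [Finset.sum_apply, Finset.mul_sum]
    refine Finset.sum_congr rfl fun j _ => ?_
    simp only [Pi.smul_apply, smul_eq_mul]
    ring
  refine ⟨_, fun a => ε a * c a, ⟨hr, hrn, hm, hφ, hp, ?_, ?_, ?_, ?_, ?_, ?_, ?_, ?_, ?_, ?_⟩⟩
  · intro x q hq
    simp only [Matrix.mulVec, dotProduct, hA, if_pos hq]
  · intro q hq
    rw [hb, if_pos hq]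
  · intro x q h1 h2
    simp only [Matrix.mulVec, dotProduct, hA, if_neg (not_lt.2 h1), if_pos h2]
    rw [← Finset.sum_neg_distrib]
    exact Finset.sum_congr rfl fun j _ => by ring
  · intro q h1 h2
    rw [hb, if_neg (not_lt.2 h1), if_pos h2]
  · intro x q j hq
    have h1 : ¬ (q : ℕ) < r := by omega
    have h2 : ¬ (q : ℕ) < r + r := by omega
    have h3 : (q : ℕ) < r + r + n := by omega
    simp only [Matrix.mulVec, dotProduct, hA, if_neg h1, if_neg h2, if_pos h3]
    rw [Finset.sum_eq_single j]
    · rw [if_pos hq, one_mul]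
    · intro i _ hi
      rw [if_neg, zero_mul]
      intro h4
      exact hi (Fin.ext (by omega))
    · intro h4
      exact absurd (Finset.mem_univ _) h4
  · intro q j hq
    rw [hb, if_neg (by omega), if_neg (by omega), if_pos (by omega),
      show (q : ℕ) - (r + r) = j by omega]
  · intro x q j hq
    have h1 : ¬ (q : ℕ) < r := by omega
    have h2 : ¬ (q : ℕ) < r + r := by omega
    have h3 : ¬ (q : ℕ) < r + r + n := by omega
    simp only [Matrix.mulVec, dotProduct, hA, if_neg h1, if_neg h2, if_neg h3]
    rw [Finset.sum_eq_single j]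
    · rw [if_pos hq, neg_mul]
    · intro i _ hi
      rw [if_neg, zero_mul]
      intro h4
      exact hi (Fin.ext (by omega))
    · intro h4
      exact absurd (Finset.mem_univ _) h4
  · intro q j hq
    rw [hb, if_neg (by omega), if_neg (by omega), if_neg (by omega),
      show (q : ℕ) - (r + r + n) = j by omega]
  · intro x
    constructor
    · intro h1 a ha
      have h2 := congrFun h1 ⟨a, ha⟩
      rw [hvec] at h2
      exact (mul_eq_zero.1 h2).resolve_left (hε _)
    · intro h1
      funext a
      rw [hvec, h1 a a.2, mul_zero]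
      rfl
  · intro x
    constructor
    · intro h1 a ha
      have h2 := congrFun h1 ⟨a, ha⟩
      rw [hvec] at h2
      exact mul_left_cancel₀ (hε _) h2
    · intro h1
      funext a
      rw [hvec, h1 a a.2]

end Pool.Agent.U23.TB
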