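import Pool.Agent.U23.TB.BFin
import Pool.Agent.U23.TP.Run

/-!
# The class is decided
-/

set_option autoImplicit false

namespace Pool.Agent.U23.TB

open Pool.Agent.H558R2 Pool.Agent.H622R3.SM Pool.Agent.W920.FC Pool.Agent.U23.LR Pool.Agent.U23.TP

section
variable {m n r : ℕ} {A : Matrix (Fin m) (Fin n) ℝ} {b : Fin m → ℝ}

lemma qs2_vals (hm1 : 1 ≤ m) (I : List ℕ) :
    List.Forall₂ (HasVal (start A b) (Gq A b)) (qs2 m n r I)
      ((List.range (m + 1)).map fun k => valM A b r I k) := by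
  unfold qs2
  rw [List.forall₂_map_left_iff, List.forall₂_map_right_iff, List.forall₂_same]
  intro k _
  exact qry_val hm1 A b (gam2 m n r I k)

lemma qs2_cost (hm1 : 1 ≤ m) (I : List ℕ) :
    ((qs2 m n r I).map fun q => q.1.length + 1).sum ≤ (m + 1) * (12 * m ^ 4 + 1) := by
  have h1 : ∀ x ∈ (qs2 m n r I).map fun q => q.1.length + 1, x ≤ 12 * m ^ 4 + 1 := by
    intro x hx
    rw [List.mem_map] at hx
    obtain ⟨q, hq, rfl⟩ := hx
    unfold qs2 at hq
    rw [List.mem_map] at hq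
    obtain ⟨k, _, rfl⟩ := hq
    have := qry_len hm1 (n := n) (gam2 m n r I k)
    omega
  have h2 := List.sum_le_card_nsmul _ _ h1
  rw [List.length_map, smul_eq_mul] at h2
  unfold qs2 at h2 ⊢
  rwa [List.length_map, List.length_range] at h2

lemma tp2_runs (hm1 : 1 ≤ m) (hrk : rk2 m n = r) :
    Runs (start A b) (Gq A b) (tp2 m n)
      (ok2 m r n (st2 A b r (r * n)) (outs2 A b r (st2 A b r (r * n))))
      (r * n * ((m + 1) * (12 * m ^ 4 + 1)) + (m + 1) * (12 * m ^ 4 + 1)) := by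
  obtain ⟨hBND, hBATCH, hITER, hMONO⟩ := t_TT
  have hbat : ∀ i, Runs (start A b) (Gq A b) (batch (qs2 m n r (st2 A b r i)))
      (outs2 A b r (st2 A b r i)) ((m + 1) * (12 * m ^ 4 + 1)) := by
    intro i
    have h1 := hBATCH (start A b) (Gq A b) _ _ (qs2_vals (r := r) hm1 (st2 A b r i))
    have h2 := hMONO _ _ _ (Gq A b) _ _ _ _ (fun _ h => h) (qs2_cost hm1 _) h1
    rw [List.map_map] at h2
    exact h2
  have hstep : ∀ i < r * n, Runs (start A b) (Gq A b) (stp2 m n (st2 A b r i))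
      (st2 A b r (i + 1)) ((m + 1) * (12 * m ^ 4 + 1)) := by
    intro i _
    unfold stp2
    rw [hrk]
    have h1 := hBND _ _ (start A b) (Gq A b) _
      (fun o => ret (nxt2 m r n (st2 A b r i) o)) _
      (st2 A b r (i + 1)) _ 0 (hbat i) (Runs.done _ _ _ fun h => rfl)
    exact h1
  have hit := hITER _ (start A b) (Gq A b) (stp2 m n) (st2 A b r) (r * n) _ hstep
  unfold tp2
  rw [hrk]
  refine hBND _ _ _ _ _ _ _ _ _ _ hit ?_
  have h1 := hBND _ _ (start A b) (Gq A b) _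
      (fun o => ret (ok2 m r n (st2 A b r (r * n)) o)) _
      (ok2 m r n (st2 A b r (r * n)) (outs2 A b r (st2 A b r (r * n)))) _ 0 (hbat (r * n))
      (Runs.done _ _ _ fun h => rfl)
  exact h1

end

/-- the bound -/
noncomputable def pbd2 : Polynomial ℕ :=
  (Polynomial.X * Polynomial.X + 1) * ((Polynomial.X + 1) * (12 * Polynomial.X ^ 4 + 1)) + 1 +
    30 * Polynomial.X ^ 2

lemma pbd2_eval (N : ℕ) :
    pbd2.eval N = (N * N + 1) * ((N + 1) * (12 * N ^ 4 + 1)) + 1 + 30 * N ^ 2 := by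
  unfold pbd2
  simp

theorem decides2 : DecidesOn BoundedSystem (algOf tp2) := by
  refine ⟨pbd2, ?_⟩
  intro m n hm1 _ A b hC
  obtain ⟨r, P, c, l, u, φ, s, hr, hrn, hm, hmin, hφ, hA, hb⟩ := hC
  obtain ⟨p, c', hinst⟩ := inst_of hr hrn hm hmin hφ hA hb
  have hrk : rk2 m n = r := by
    unfold rk2
    omega
  have hrun := tp2_runs (A := A) (b := b) hm1 hrk
  set ans := ok2 m r n (st2 A b r (r * n)) (outs2 A b r (st2 A b r (r * n))) with hans
  have hcost : r * n * ((m + 1) * (12 * m ^ 4 + 1)) + (m + 1) * (12 * m ^ 4 + 1) + 1 ≤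
      pbd2.eval (m + n) := by
    rw [pbd2_eval]
    have h1 : r * n ≤ (m + n) * (m + n) := Nat.mul_le_mul (by omega) (by omega)
    have h2 : (m + 1) * (12 * m ^ 4 + 1) ≤ ((m + n) + 1) * (12 * (m + n) ^ 4 + 1) := by
      have h3 : m ^ 4 ≤ (m + n) ^ 4 := Nat.pow_le_pow_left (by omega) 4
      exact Nat.mul_le_mul (by omega) (by omega)
    have h4 := Nat.mul_le_mul (Nat.add_le_add_right h1 1) h2
    nlinarith [h4, Nat.zero_le (30 * (m + n) ^ 2)]
  obtain ⟨nums, steps, h1, h2, h3⟩ := t_RUN tp2 m n (start A b) (Gq A b) ans _ hrun ∅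
    (pbd2.eval (m + n)) hcost
  refine ⟨ans, nums, steps, h1, ?_, by omega, ?_⟩
  · rw [hans]
    exact ok2_iff hinst
  · intro A' b' hA' hb' v hv
    obtain ⟨q, h4, h5⟩ := h3 v hv A' b' hA' hb'
    refine ⟨q, h4, h5.trans ?_⟩
    rw [pbd2_eval]
    omega

end Pool.Agent.U23.TB
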