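import Pool.Agent.U23.TB.Alt

/-!
# The comparison of a state with the target
-/

set_option autoImplicit false

namespace Pool.Agent.U23.TB

open Finset Pool.Agent.U23.TP

/-- `j` lies in the gap number `m` of `B`. -/
def Gap (r : ℕ) (B : ℕ → ℕ) (m j : ℕ) : Prop := (m = 0 ∨ B (m - 1) < j) ∧ (m = r ∨ j < B m)

/-- **Comparison.** `B` is the state, `J` the target, `d` the difference of the target point and the
point of the state. -/
theorem compare {r n K : ℕ} {p : ℕ → Fin r → ℝ} (hrn : r ≤ n) (hp : Cheb r n p)
    {B J : ℕ → ℕ} (hle : ∀ l < r, B l ≤ J l) {d : ℕ → ℝ}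
    (hd : ∑ j ∈ range n, d j • p j = 0) {Q : ℕ → ℕ → Prop}
    (hG : ∀ m ≤ r, ∀ j < n, Gap r B m j → 0 ≤ (-1 : ℝ) ^ (r + m) * d j)
    (hG' : ∀ m ≤ r, ∀ j < n, Gap r B m j → 0 < (-1 : ℝ) ^ (r + m) * d j → Q m j)
    (hB : ∀ m, K ≤ m → m < r → 0 < (-1 : ℝ) ^ (r + m) * d (B m) → Q m (B m))
    (hT : ∀ m ≤ r, ∀ j < n, Gap r J m j → ¬ Q m j) (hKr : K ≤ r)
    (hV : K = 0 ∨ (1 ≤ K ∧ B (K - 1) = J (K - 1) ∧ 0 < (-1 : ℝ) ^ (r + (K - 1)) * d (B (K - 1)))) :
    ∀ j < n, d j = 0 := by
  intro j0 hj0
  by_contra hne
  obtain ⟨i, τ, hτ, i1, i2, i3⟩ := alternation hrn hp d hd ⟨j0, hj0, hne⟩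
  have hin : ∀ m ≤ r, i m < n := by
    intro m hm
    rcases Nat.lt_or_ge m r with h1 | h1
    · exact (chain_lt i1 h1 (le_refl _)).trans i2
    · rwa [show m = r by omega]
  have hpow : ∀ k : ℕ, ((-1 : ℝ)) ^ k = 1 ∨ ((-1 : ℝ)) ^ k = -1 := fun k => neg_one_pow_eq_or ℝ k
  have hpow2 : ∀ k : ℕ, ((-1 : ℝ)) ^ k * (-1) ^ k = 1 := by
    intro k
    rw [← mul_pow]
    norm_num
  -- the sign of the chain
  have hτr : τ = (-1 : ℝ) ^ r := by
    by_contra hc
    have hτ' : τ = -(-1 : ℝ) ^ r := by
      rcases hτ with h | h <;> rcases hpow r with h' | h' <;> rw [h, h'] at hc ⊢ <;>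
        first | exact absurd rfl hc | norm_num
    have hs : ∀ m ≤ r, (-1 : ℝ) ^ (r + m) * d (i m) < 0 := by
      intro m hm
      have := i3 m hm
      rw [hτ'] at this
      rw [pow_add]
      linarith
    have hge : ∀ m < r, B m ≤ i m := by
      intro m
      induction m with
      | zero =>
        intro hm
        by_contra h1
        have h2 := hG 0 (Nat.zero_le _) (i 0) (hin 0 (Nat.zero_le _))
          ⟨Or.inl rfl, Or.inr (by omega)⟩
        have h3 := hs 0 (Nat.zero_le _)
        linarith
      | succ m ih =>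
        intro hm
        by_contra h1
        have h4 := ih (by omega)
        have h5 := i1 m (by omega)
        have h2 := hG (m + 1) (by omega) (i (m + 1)) (hin _ (by omega))
          ⟨Or.inr (by rw [Nat.add_sub_cancel]; omega), Or.inr (by omega)⟩
        have h3 := hs (m + 1) (by omega)
        linarith
    have h2 := hG r (le_refl _) (i r) i2 ⟨by
      rcases Nat.eq_zero_or_pos r with h | h
      · exact Or.inl h
      · right
        have h3 := hge (r - 1) (by omega)
        have h4 := i1 (r - 1) (by omega)
        rw [show r - 1 + 1 = r by omega] at h4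
        omega, Or.inl rfl⟩
    have h3 := hs r (le_refl _)
    linarith
  have hs : ∀ m ≤ r, 0 < (-1 : ℝ) ^ (r + m) * d (i m) := by
    intro m hm
    have := i3 m hm
    rw [hτr] at this
    rw [pow_add]
    exact this
  have hpm : ∀ (m : ℕ) (x : ℝ), (-1 : ℝ) ^ (r + (m + 1)) * x = -((-1 : ℝ) ^ (r + m) * x) := by
    intro m x
    rw [show r + (m + 1) = r + m + 1 by omega, pow_succ]
    ring
  -- upper bounds
  have hup : ∀ t m, m + t + 1 = r → i m ≤ B m := by
    intro t
    induction t with
    | zero =>
      intro m hm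
      by_contra h1
      have h2 := hG (m + 1) (by omega) (i m) (hin m (by omega))
        ⟨Or.inr (by rw [Nat.add_sub_cancel]; omega), Or.inl (by omega)⟩
      have h3 := hs m (by omega)
      rw [hpm] at h2
      linarith
    | succ t ih =>
      intro m hm
      by_contra h1
      have h4 := ih (m + 1) (by omega)
      have h5 := i1 m (by omega)
      have h2 := hG (m + 1) (by omega) (i m) (hin m (by omega))
        ⟨Or.inr (by rw [Nat.add_sub_cancel]; omega), Or.inr (by omega)⟩
      have h3 := hs m (by omega)
      rw [hpm] at h2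
      linarith
  have hlo : ∀ m < r, B m ≤ i (m + 1) := by
    intro m
    induction m with
    | zero =>
      intro hm
      by_contra h1
      have h2 := hG 0 (Nat.zero_le _) (i (0 + 1)) (hin _ (by omega))
        ⟨Or.inl rfl, Or.inr (by omega)⟩
      have h3 := hs (0 + 1) (by omega)
      rw [hpm] at h3
      linarith
    | succ m ih =>
      intro hm
      by_contra h1
      have h4 := ih (by omega)
      have h5 := i1 (m + 1) (by omega)
      have h2 := hG (m + 1) (by omega) (i (m + 1 + 1)) (hin _ (by omega))
        ⟨Or.inr (by rw [Nat.add_sub_cancel]; omega), Or.inr (by omega)⟩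
      have h3 := hs (m + 1 + 1) (by omega)
      rw [hpm] at h3
      linarith
  have hC : ∀ m, K ≤ m → m ≤ r → (1 ≤ m ∧ i m ≤ J (m - 1)) ∨ (m < r ∧ i m = J m) := by
    intro m hKm hm
    have hup' : m < r → i m ≤ B m := fun h => hup (r - m - 1) m (by omega)
    by_cases h1 : 1 ≤ m ∧ i m = B (m - 1)
    · left
      exact ⟨h1.1, h1.2 ▸ hle (m - 1) (by omega)⟩
    · have h2 : m = 0 ∨ B (m - 1) < i m := by
        rcases Nat.eq_zero_or_pos m with h3 | h3
        · exact Or.inl h3
        · right
          have h4 := hlo (m - 1) (by omega)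
          rw [show m - 1 + 1 = m by omega] at h4
          have h5 : i m ≠ B (m - 1) := fun h => h1 ⟨h3, h⟩
          omega
      have hQ : Q m (i m) := by
        by_cases h3 : m < r ∧ i m = B m
        · rw [h3.2]
          refine hB m hKm h3.1 ?_
          rw [← h3.2]
          exact hs m hm
        · refine hG' m hm (i m) (hin m hm) ⟨h2, ?_⟩ (hs m hm)
          rcases Nat.lt_or_ge m r with h4 | h4
          · right
            have h5 := hup' h4
            have h6 : i m ≠ B m := fun h => h3 ⟨h4, h⟩
            omega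
          · left
            omega
      have h3 : ¬ Gap r J m (i m) := fun h => hT m hm (i m) (hin m hm) h hQ
      unfold Gap at h3
      rw [not_and_or, not_or, not_or, not_lt, not_lt] at h3
      rcases h3 with h3 | h3
      · exact Or.inl ⟨by omega, h3.2⟩
      · right
        have h4 : m < r := by omega
        have h5 := hup' h4
        have h6 := hle m h4
        exact ⟨h4, by omega⟩
  have hK : K < r ∧ i K = J K := by
    rcases hC K (le_refl _) hKr with h1 | h1
    · exfalso
      rcases hV with h2 | ⟨h2, h3, h4⟩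
      · omega
      · have h5 := hlo (K - 1) (by omega)
        rw [show K - 1 + 1 = K by omega] at h5
        have h6 : i K = B (K - 1) := by omega
        have h7 := hs K hKr
        rw [h6, show K = K - 1 + 1 by omega, hpm, Nat.add_sub_cancel] at h7
        linarith
    · exact h1
  have hall : ∀ t, K + t ≤ r → K + t < r ∧ i (K + t) = J (K + t) := by
    intro t
    induction t with
    | zero => intro _; exact hK
    | succ t ih =>
      intro ht
      have h1 := ih (by omega)
      rcases hC (K + (t + 1)) (by omega) ht with h2 | h2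
      · exfalso
        have h3 := i1 (K + t) h1.1
        rw [show K + (t + 1) - 1 = K + t by omega] at h2
        rw [show K + t + 1 = K + (t + 1) by omega] at h3
        omega
      · exact h2
  have := (hall (r - K) (by omega)).1
  omega

end Pool.Agent.U23.TB
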