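import Pool.Agent.U23.TP.Ex
import Pool.Agent.U23.TB.Main

/-!
# Existence of the target
-/

set_option autoImplicit false

namespace Pool.Agent.U23.TB

open Finset Pool.Agent.U23.TP

/-- the last positions, shifted by one -/
noncomputable def Th (n r : ℕ) (Q : ℕ → ℕ → Prop) : ℕ → ℕ
  | 0 => n + 1
  | t + 1 => by
    classical
    exact Nat.findGreatest (fun i => 1 ≤ i ∧ Q (r - t) (i - 1)) (Th n r Q t - 1)

/-- a greedy choice -/
theorem exists_J {r n : ℕ} (hrn : r ≤ n) (Q : ℕ → ℕ → Prop)
    (hno : ¬ ∃ K : ℕ → ℕ, (∀ l < r, K l < K (l + 1)) ∧ K r < n ∧ ∀ m ≤ r, Q m (K m)) :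
    ∃ J, Inc r n J ∧ ∀ m ≤ r, ∀ j < n, Gap r J m j → ¬ Q m j := by
  classical
  have hle : ∀ t, Th n r Q (t + 1) ≤ Th n r Q t - 1 := fun t => Nat.findGreatest_le _
  have hspec : ∀ t, Th n r Q (t + 1) ≠ 0 → 1 ≤ Th n r Q (t + 1) ∧ Q (r - t) (Th n r Q (t + 1) - 1) :=
    fun t h => Nat.findGreatest_of_ne_zero (P := fun i => 1 ≤ i ∧ Q (r - t) (i - 1)) rfl h
  have hgr : ∀ t i, Th n r Q (t + 1) < i → i ≤ Th n r Q t - 1 → ¬ (1 ≤ i ∧ Q (r - t) (i - 1)) :=
    fun t i h1 h2 => Nat.findGreatest_is_greatest h1 h2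
  have hT0 : Th n r Q 0 = n + 1 := rfl
  -- the chain ends
  have hend : Th n r Q (r + 1) = 0 := by
    by_contra hc
    have hpos : ∀ t, t ≤ r + 1 → Th n r Q t ≠ 0 := by
      intro t ht h0
      have : ∀ s, t + s ≤ r + 1 → Th n r Q (t + s) = 0 := by
        intro s
        induction s with
        | zero => intro _; exact h0
        | succ s ih =>
          intro hs
          have h1 := ih (by omega)
          have h2 := hle (t + s)
          rw [show t + (s + 1) = t + s + 1 by omega]
          omega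
      exact hc (by
        have := this (r + 1 - t) (by omega)
        rwa [show t + (r + 1 - t) = r + 1 by omega] at this)
    refine hno ⟨fun m => Th n r Q (r + 1 - m) - 1, fun l hl => ?_, ?_, fun m hm => ?_⟩
    · simp only
      have h1 := hle (r - l)
      have h2 := hpos (r - l + 1) (by omega)
      have h3 := hpos (r - l) (by omega)
      rw [show r + 1 - l = r - l + 1 by omega, show r + 1 - (l + 1) = r - l by omega]
      omega
    · beta_reduce
      have h1 := hle 0
      rw [show r + 1 - r = 0 + 1 by omega]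
      have h2 := hpos (0 + 1) (by omega)
      omega
    · beta_reduce
      have h1 := (hspec (r - m) (hpos (r - m + 1) (by omega))).2
      rw [show r + 1 - m = r - m + 1 by omega]
      rwa [show r - (r - m) = m by omega] at h1
  refine ⟨fun l => max (Th n r Q (r - l) - 1) l, ⟨fun l hl => ?_, fun l hl => ?_⟩, ?_⟩
  · have h1 := hle (r - (l + 1))
    rw [show r - (l + 1) + 1 = r - l by omega] at h1
    omega
  · have h1 : Th n r Q (r - l) ≤ n := by
      have : ∀ t, Th n r Q (t + 1) ≤ n := by
        intro t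
        induction t with
        | zero =>
          have := hle 0
          omega
        | succ t ih =>
          have := hle (t + 1)
          omega
      have h2 := this (r - l - 1)
      rwa [show r - l - 1 + 1 = r - l by omega] at h2
    omega
  · intro m hm j hj hgap hQ
    unfold Gap at hgap
    simp only at hgap
    obtain ⟨g1, g2⟩ := hgap
    refine hgr (r - m) (j + 1) ?_ ?_ ⟨by omega, ?_⟩
    · rcases g1 with h0 | h0
      · rw [h0, show r - 0 + 1 = r + 1 by omega, hend]
        omega
      · rcases Nat.eq_zero_or_pos m with h1 | h1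
        · rw [h1, show r - 0 + 1 = r + 1 by omega, hend]
          omega
        · rw [show r - (m - 1) = r - m + 1 by omega] at h0
          omega
    · rcases g2 with h0 | h0
      · rw [h0, Nat.sub_self, hT0]
        omega
      · rcases Nat.eq_zero_or_pos m with h1 | h1
        · rw [h1] at h0 ⊢
          omega
        · rcases g1 with h2 | h2
          · omega
          · omega
    · rw [Nat.add_sub_cancel, show r - (r - m) = m by omega]
      exact hQ

/-- a solution of least weight -/
theorem exists_min2 {n : ℕ} {r : ℕ} (p : ℕ → Fin r → ℝ) (w : ℕ → ℝ) (hw : ∀ j, 0 < w j)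
    (c : Fin r → ℝ) (l u φ : ℕ → ℝ) (x : Fin n → ℝ) (hx : ∀ j : Fin n, l j ≤ x j)
    (hx2 : ∀ j : Fin n, φ j * x j ≤ u j) (hc : c = ∑ j : Fin n, x j • p j) :
    ∃ y : Fin n → ℝ, (∀ j : Fin n, l j ≤ y j) ∧ (∀ j : Fin n, φ j * y j ≤ u j) ∧
      c = ∑ j : Fin n, y j • p j ∧
      ∀ y' : Fin n → ℝ, (∀ j : Fin n, l j ≤ y' j) → (∀ j : Fin n, φ j * y' j ≤ u j) →
        c = ∑ j : Fin n, y' j • p j → ∑ j : Fin n, w j * y j ≤ ∑ j : Fin n, w j * y' j := by
  classical
  let F : (Fin n → ℝ) → ℝ := fun y => ∑ j : Fin n, w j * y j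
  have hF : Continuous F := by
    simp only [F]
    fun_prop
  let X : Set (Fin n → ℝ) := {y | (∀ j : Fin n, l j ≤ y j) ∧ (∀ j : Fin n, φ j * y j ≤ u j) ∧
    c = ∑ j : Fin n, y j • p j ∧ F y ≤ F x}
  have hXc : IsCompact X := by
    refine (isCompact_univ_pi (s := fun j : Fin n => Set.Icc (l j)
      (l j + (F x - F fun j => l j) / w j)) fun j => isCompact_Icc).of_isClosed_subset ?_ ?_
    · have e : X = {y : Fin n → ℝ | ∀ j : Fin n, l j ≤ y j} ∩
          ({y : Fin n → ℝ | ∀ j : Fin n, φ j * y j ≤ u j} ∩ ({y | c = ∑ j : Fin n, y j • p j} ∩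
          {y | F y ≤ F x})) := by
        ext y
        simp only [X, Set.mem_ofPred_eq, Set.mem_inter_iff]
      rw [e]
      refine IsClosed.inter ?_ (IsClosed.inter ?_ (IsClosed.inter ?_ ?_))
      · have e2 : {y : Fin n → ℝ | ∀ j : Fin n, l j ≤ y j} = ⋂ j : Fin n, {y | l j ≤ y j} := by
          ext y; simp
        rw [e2]
        exact isClosed_iInter fun j => isClosed_le continuous_const (continuous_apply j)
      · have e2 : {y : Fin n → ℝ | ∀ j : Fin n, φ j * y j ≤ u j} =
            ⋂ j : Fin n, {y | φ j * y j ≤ u j} := by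
          ext y; simp
        rw [e2]
        exact isClosed_iInter fun j => isClosed_le (continuous_const.mul (continuous_apply j))
          continuous_const
      · refine isClosed_eq continuous_const ?_
        fun_prop
      · exact isClosed_le hF continuous_const
    · rintro y ⟨h1, _, _, h3⟩
      rw [Set.mem_univ_pi]
      intro j
      refine ⟨h1 j, ?_⟩
      have h4 : w j * (y j - l j) ≤ ∑ i : Fin n, w i * (y i - l i) :=
        Finset.single_le_sum (f := fun i : Fin n => w i * (y i - l i))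
          (fun i _ => mul_nonneg (hw i).le (sub_nonneg.2 (h1 i))) (Finset.mem_univ j)
      have h5 : ∑ i : Fin n, w i * (y i - l i) = F y - F fun j => l j := by
        simp only [F, mul_sub, Finset.sum_sub_distrib]
      have h6 : y j - l j ≤ (F x - F fun j => l j) / w j := by
        rw [le_div_iff₀ (hw j), mul_comm]
        linarith
      linarith
  obtain ⟨y, hy, hmin⟩ := hXc.exists_isMinOn ⟨x, hx, hx2, hc, le_refl _⟩ hF.continuousOn
  refine ⟨y, hy.1, hy.2.1, hy.2.2.1, fun y' h1 h1' h2 => ?_⟩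
  rcases le_total (F y') (F x) with h3 | h3
  · exact hmin (show y' ∈ X from ⟨h1, h1', h2, h3⟩)
  · exact le_trans hy.2.2.2 h3

lemma sum_pick {n r : ℕ} {M : Type} [AddCommGroup M] [Module ℝ M] (K : ℕ → ℕ)
    (hK : ∀ i < r, K i < n) (e : Fin r → ℝ) (f : ℕ → M) :
    ∑ j : Fin n, (∑ i : Fin r, if K i = j then e i else 0) • f j = ∑ i : Fin r, e i • f (K i) := by
  simp only [Finset.sum_smul]
  rw [Finset.sum_comm]
  refine Finset.sum_congr rfl fun i _ => ?_
  rw [Finset.sum_eq_single (⟨K i, hK i i.2⟩ : Fin n)]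
  · simp
  · intro b _ hb
    rw [if_neg, zero_smul]
    intro h3
    exact hb (Fin.ext h3.symm)
  · intro h3
    exact absurd (Finset.mem_univ _) h3

lemma sum_pick1 {n : ℕ} {M : Type} [AddCommGroup M] [Module ℝ M] {k : ℕ}
    (hk : k < n) (e : ℝ) (f : ℕ → M) :
    ∑ j : Fin n, (if k = j then e else 0) • f j = e • f k := by
  rw [Finset.sum_eq_single (⟨k, hk⟩ : Fin n)]
  · simp
  · intro b _ hb
    rw [if_neg, zero_smul]
    intro h3
    exact hb (Fin.ext h3.symm)
  · intro h3
    exact absurd (Finset.mem_univ _) h3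

/-- a direction of improvement -/
theorem exists_dir {r n : ℕ} {p : ℕ → Fin r → ℝ} (hp : Cheb r n p) {w : ℕ → ℝ}
    (hw2 : ∀ (I : ℕ → ℕ) (j : ℕ), Inc r n I → j < n → (∀ l < r, I l < j) →
      ∑ i : Fin r, cf p I (p j) i * w (I i) < (MI p I).det * w j)
    {K : ℕ → ℕ} (k1 : ∀ l < r, K l < K (l + 1)) (k2 : K r < n) :
    ∃ v : Fin n → ℝ, ∑ j : Fin n, v j • p j = 0 ∧ ∑ j : Fin n, w j * v j < 0 ∧
      (∀ j : Fin n, (∀ m ≤ r, (r + m) % 2 = 0 → K m ≠ j) → 0 ≤ v j) ∧
      ∀ j : Fin n, (∀ m ≤ r, (r + m) % 2 = 1 → K m ≠ j) → v j ≤ 0 := by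
  classical
  have hlt : ∀ l < r, K l < K r := fun l hl => chain_lt k1 hl (le_refl _)
  have hI : Inc r n K := ⟨fun l hl => k1 l (by omega), fun l hl => (hlt l hl).trans k2⟩
  have hd := det_pos hp hI
  set e : Fin r → ℝ := fun i => cf p K (p (K r)) i with he
  have hsign : ∀ i : Fin r, 0 < (-1 : ℝ) ^ ((i : ℕ) + (r - 1)) * e i := by
    intro i
    have h1 := cf_sign hp hI i k2 (fun l hl => (hlt l hl).ne)
    have h2 : cnt ((range r).erase (i : ℕ)) K (K r) = r - 1 := by
      unfold cnt
      rw [Finset.filter_true_of_mem, Finset.card_erase_of_mem (Finset.mem_range.2 i.2),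
        Finset.card_range]
      intro l hl
      exact hlt l (Finset.mem_range.1 (Finset.mem_erase.1 hl).2)
    rwa [h2] at h1
  have hodd : ∀ i : Fin r, (r + i) % 2 = 1 → 0 ≤ e i := by
    intro i hi
    have h1 := hsign i
    rw [neg_one_pow_parity (b := 0) (by have := i.2; omega), pow_zero, one_mul] at h1
    exact h1.le
  have heven : ∀ i : Fin r, (r + i) % 2 = 0 → e i ≤ 0 := by
    intro i hi
    have h1 := hsign i
    rw [neg_one_pow_parity (b := 1) (by have := i.2; omega), pow_one] at h1
    linarith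
  refine ⟨fun j => (∑ i : Fin r, if K i = j then e i else 0) -
      if K r = j then (MI p K).det else 0, ?_, ?_, ?_, ?_⟩
  · simp only [sub_smul, Finset.sum_sub_distrib]
    rw [sum_pick K (fun i hi => hI.lt i hi) e p, sum_pick1 k2, he, cf_sum, sub_self]
  · have h1 : ∑ j : Fin n, w j * ((∑ i : Fin r, if K i = j then e i else 0) -
        if K r = j then (MI p K).det else 0) = (∑ i : Fin r, e i * w (K i)) -
          (MI p K).det * w (K r) := by
      have h2 := sum_pick K (fun i hi => hI.lt i hi) e w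
      have h3 := sum_pick1 k2 (MI p K).det w
      simp only [smul_eq_mul] at h2 h3
      rw [← h2, ← h3, ← Finset.sum_sub_distrib]
      exact Finset.sum_congr rfl fun j _ => by ring
    rw [h1]
    have := hw2 K (K r) hI k2 hlt
    linarith
  · intro j hj
    simp only
    rw [if_neg (hj r (le_refl _) (by omega)), sub_zero]
    refine Finset.sum_nonneg fun i _ => ?_
    split_ifs with h3
    · refine hodd i ?_
      by_contra h4
      exact hj i i.2.le (by omega) h3
    · exact le_refl _
  · intro j hj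
    simp only
    have h1 : (∑ i : Fin r, if K i = j then e i else 0) ≤ 0 := by
      refine Finset.sum_nonpos fun i _ => ?_
      split_ifs with h3
      · refine heven i ?_
        by_contra h4
        exact hj i i.2.le (by omega) h3
      · exact le_refl _
    have h2 : (0 : ℝ) ≤ if K r = j then (MI p K).det else 0 := by
      split_ifs
      · exact hd.le
      · exact le_refl _
    linarith

/-- `z` can be decreased (`r + m` even), increased (`r + m` odd) at `j`. -/
def Qp (r : ℕ) (l u φ z : ℕ → ℝ) (m j : ℕ) : Prop :=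
  if (r + m) % 2 = 0 then l j < z j else (φ j = 0 ∨ φ j * z j < u j)

/-- **Existence of the target.** -/
theorem exists_target {r n : ℕ} {p : ℕ → Fin r → ℝ} (hrn : r ≤ n) (hp : Cheb r n p)
    (c : Fin r → ℝ) (l u φ : ℕ → ℝ) (hφ : ∀ j < n, 0 ≤ φ j)
    (x : Fin n → ℝ) (hx : ∀ j : Fin n, l j ≤ x j) (hx2 : ∀ j : Fin n, φ j * x j ≤ u j)
    (hc : c = ∑ j : Fin n, x j • p j) :
    ∃ z : ℕ → ℝ, (∀ j < n, l j ≤ z j) ∧ (∀ j < n, φ j * z j ≤ u j) ∧
      c = ∑ j ∈ range n, z j • p j ∧
      ∃ J, Inc r n J ∧ ∀ m ≤ r, ∀ j < n, Gap r J m j → ¬ Qp r l u φ z m j := by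
  classical
  obtain ⟨w, hw, hw2⟩ := exists_weight hp
  obtain ⟨y, hy, hy2, hyc, hmin⟩ := exists_min2 p w hw c l u φ x hx hx2 hc
  set z : ℕ → ℝ := fun j => if h : j < n then y ⟨j, h⟩ else 0 with hz
  have hzy : ∀ j : Fin n, z j = y j := by
    intro j
    simp only [hz, dif_pos j.2]
  have hzy' : ∀ (j : ℕ) (h : j < n), z j = y ⟨j, h⟩ := fun j h => hzy ⟨j, h⟩
  refine ⟨z, fun j hj => ?_, fun j hj => ?_, ?_, exists_J hrn _ ?_⟩
  · rw [hzy' j hj]
    exact hy ⟨j, hj⟩
  · rw [hzy' j hj]
    exact hy2 ⟨j, hj⟩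
  · rw [hyc, Finset.sum_range]
    exact Finset.sum_congr rfl fun j _ => by rw [hzy]
  · rintro ⟨K, k1, k2, k3⟩
    obtain ⟨v, v1, v2, v3, v4⟩ := exists_dir hp hw2 k1 k2
    have hlow : ∀ j : Fin n, l j < y j ∨ 0 ≤ v j := by
      intro j
      by_cases h : ∃ m ≤ r, (r + m) % 2 = 0 ∧ K m = j
      · obtain ⟨m, hm, hm2, h1⟩ := h
        have h2 := k3 m hm
        unfold Qp at h2
        rw [if_pos hm2, h1, hzy] at h2
        exact Or.inl h2
      · push Not at h
        exact Or.inr (v3 j h)
    have hupp : ∀ j : Fin n, (φ j = 0 ∨ φ j * y j < u j) ∨ v j ≤ 0 := by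
      intro j
      by_cases h : ∃ m ≤ r, (r + m) % 2 = 1 ∧ K m = j
      · obtain ⟨m, hm, hm2, h1⟩ := h
        have h2 := k3 m hm
        unfold Qp at h2
        rw [if_neg (by omega), h1, hzy] at h2
        exact Or.inl h2
      · push Not at h
        exact Or.inr (v4 j h)
    obtain ⟨ε, hε, hε2⟩ : ∃ ε : ℝ, 0 < ε ∧ ∀ j : Fin n, l j ≤ y j + ε * v j ∧
        φ j * (y j + ε * v j) ≤ u j := by
      have h1 : ∀ᶠ ε : ℝ in nhdsWithin 0 (Set.Ioi 0), ∀ j : Fin n, l j ≤ y j + ε * v j ∧
          φ j * (y j + ε * v j) ≤ u j := by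
        rw [Filter.eventually_all]
        intro j
        have hten : Filter.Tendsto (fun ε : ℝ => y j + ε * v j) (nhdsWithin 0 (Set.Ioi 0))
              (nhds (y j)) := by
          have h3 : Filter.Tendsto (fun ε : ℝ => y j + ε * v j) (nhdsWithin 0 (Set.Ioi 0))
              (nhds (y j + 0 * v j)) := by
            refine Filter.Tendsto.mono_left ?_ nhdsWithin_le_nhds
            exact (continuous_const.add (continuous_id.mul continuous_const)).tendsto 0
          rwa [zero_mul, add_zero] at h3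
        refine Filter.Eventually.and ?_ ?_
        · rcases hlow j with h2 | h2
          · filter_upwards [hten.eventually (lt_mem_nhds h2)] with ε h4
            exact h4.le
          · filter_upwards [self_mem_nhdsWithin] with ε h3
            have := mul_nonneg (le_of_lt h3) h2
            linarith [hy j]
        · rcases hupp j with (h2 | h2) | h2
          · refine Filter.Eventually.of_forall fun ε => ?_
            have := hy2 j
            rw [h2, zero_mul] at this ⊢
            exact this
          · have h3 : Filter.Tendsto (fun ε : ℝ => φ j * (y j + ε * v j))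
                (nhdsWithin 0 (Set.Ioi 0)) (nhds (φ j * y j)) := hten.const_mul _
            filter_upwards [h3.eventually (gt_mem_nhds h2)] with ε h4
            exact h4.le
          · filter_upwards [self_mem_nhdsWithin] with ε h3
            have h4 := mul_nonneg (le_of_lt h3) (neg_nonneg.2 h2)
            have h5 := mul_nonneg (hφ j j.2) h4
            have h6 := hy2 j
            nlinarith [h5, h6]
      obtain ⟨ε, h2, h3⟩ := (h1.and self_mem_nhdsWithin).exists
      exact ⟨ε, h3, h2⟩
    have h1 := hmin (fun j => y j + ε * v j) (fun j => (hε2 j).1) (fun j => (hε2 j).2) (by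
      simp only [add_smul, Finset.sum_add_distrib, mul_smul]
      rw [← hyc, ← Finset.smul_sum, v1, smul_zero, add_zero])
    have h2 : ∑ j : Fin n, w j * (y j + ε * v j) =
        ∑ j : Fin n, w j * y j + ε * ∑ j : Fin n, w j * v j := by
      rw [Finset.mul_sum, ← Finset.sum_add_distrib]
      exact Finset.sum_congr rfl fun j _ => by ring
    rw [h2] at h1
    have h3 := mul_neg_of_pos_of_neg hε v2
    linarith

end Pool.Agent.U23.TB
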