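import Pool.Agent.U23.TB.BDefs
import Pool.Agent.U23.TB.Tgt

/-!
# The states
-/

set_option autoImplicit false

namespace Pool.Agent.U23.TB

open Pool.Agent.H622R3.SM Pool.Agent.U23.TP

lemma stat_two {r : ℕ} {I : List ℕ} {j : ℕ} : stat r I j = 2 ↔ ∃ l < r, fn I l = j := by
  have h : ((List.range r).any fun l => decide (I.getD l 0 = j)) = true ↔ ∃ l < r, fn I l = j := by
    simp [List.any_eq_true]
  unfold stat
  constructor
  · intro h1
    by_contra hc
    rw [if_neg fun h2 => hc (h.1 h2)] at h1
    omega
  · intro h1
    rw [if_pos (h.2 h1)]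

lemma stat_lt {r : ℕ} {I : List ℕ} {j : ℕ} : stat r I j = 0 ∨ stat r I j = 1 ∨ stat r I j = 2 := by
  unfold stat
  split_ifs <;> omega

lemma Gap.not_mem {r n m j : ℕ} {B : ℕ → ℕ} (hB : Inc r n B) (hm : m ≤ r) (h : Gap r B m j) :
    ∀ l < r, B l ≠ j := by
  intro l hl hlj
  rcases Nat.lt_or_ge l m with h1 | h1
  · rcases h.1 with h2 | h2
    · omega
    · rcases Nat.lt_or_ge l (m - 1) with h3 | h3
      · have := hB.lt_lt h3 (by omega)
        omega
      · rw [show l = m - 1 by omega] at hlj
        omega
  · rcases h.2 with h2 | h2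
    · omega
    · rcases Nat.lt_or_ge m l with h3 | h3
      · have := hB.lt_lt h3 hl
        omega
      · rw [show l = m by omega] at hlj
        omega

lemma stat_gap {r n m : ℕ} {I : List ℕ} {j : ℕ} (hI : Inc r n (fn I)) (hm : m ≤ r)
    (h : Gap r (fn I) m j) : stat r I j = (r + m) % 2 := by
  have h1 : ¬ ((List.range r).any fun l => decide (I.getD l 0 = j)) = true := by
    rw [List.any_eq_true]
    rintro ⟨l, hl, h2⟩
    exact Gap.not_mem hI hm h l (List.mem_range.1 hl) (by simpa using h2)
  unfold stat
  rw [if_neg h1]
  have h2 : (List.range r).filter (fun l => decide (I.getD l 0 < j)) = List.range m := by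
    obtain ⟨t, rfl⟩ : ∃ t, r = m + t := ⟨r - m, by omega⟩
    rw [List.range_add, List.filter_append, List.filter_eq_self.2, List.filter_eq_nil_iff.2,
      List.append_nil]
    · intro x hx
      obtain ⟨y, hy, rfl⟩ := List.mem_map.1 hx
      rw [List.mem_range] at hy
      rcases h.2 with h3 | h3
      · omega
      · have h4 := hI.add_le m y (by omega)
        simp only [fn] at h3 h4
        simp only [decide_eq_true_eq]
        omega
    · intro x hx
      rw [List.mem_range] at hx
      rcases h.1 with h3 | h3
      · omega
      · have h4 := hI.add_le x (m - 1 - x) (by omega)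
        rw [show x + (m - 1 - x) = m - 1 by omega] at h4
        simp only [fn] at h3 h4
        simp only [decide_eq_true_eq]
        omega
  rw [h2, List.length_range]

/-- every place not in `B` is in a gap -/
lemma exists_gap {r : ℕ} {B : ℕ → ℕ} {j : ℕ} (hj : ∀ l < r, B l ≠ j) :
    ∃ m ≤ r, Gap r B m j := by
  classical
  by_cases h : ∃ m, m < r ∧ j < B m
  · have h1 := Nat.find_spec h
    refine ⟨Nat.find h, h1.1.le, ?_, Or.inr h1.2⟩
    rcases Nat.eq_zero_or_pos (Nat.find h) with h2 | h2
    · exact Or.inl h2
    · right
      have h3 := Nat.find_min h (show Nat.find h - 1 < Nat.find h by omega)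
      have h4 := hj (Nat.find h - 1) (by omega)
      have h5 : ¬ j < B (Nat.find h - 1) := fun h6 => h3 ⟨by omega, h6⟩
      omega
  · push Not at h
    refine ⟨r, le_refl _, ?_, Or.inl rfl⟩
    rcases Nat.eq_zero_or_pos r with h2 | h2
    · exact Or.inl h2
    · right
      have h3 := h (r - 1) (by omega)
      have h4 := hj (r - 1) (by omega)
      omega

/-- the new places at the upper bound -/
lemma stat_shift {r n k : ℕ} {I : List ℕ} (hI : Inc r n (fn I)) (hI' : Inc r n (fn (shiftL r k I)))
    {j : ℕ} (hj : stat r (shiftL r k I) j = 1) :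
    stat r I j = 1 ∨ (j = fn I k ∧ (r + k) % 2 = 1) := by
  have h1 : ∀ l < r, fn (shiftL r k I) l ≠ j := by
    intro l hl h2
    have := stat_two.2 ⟨l, hl, h2⟩
    omega
  obtain ⟨m, hm, hg⟩ := exists_gap h1
  have h2 := stat_gap hI' hm hg
  rw [hj] at h2
  have hsh : ∀ l < r, fn (shiftL r k I) l = if k ≤ l ∧ fn I l + k = fn I k + l then fn I l + 1
      else fn I l := fun l hl => shift_getD hl
  have hlow : m = 0 ∨ fn I (m - 1) < j := by
    rcases hg.1 with h3 | h3
    · exact Or.inl h3
    · right
      rcases Nat.eq_zero_or_pos m with h5 | h5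
      · rcases Nat.eq_zero_or_pos r with h6 | h6
        · rw [h6] at h2
          omega
        · rw [h5] at h3 ⊢
          have h4 := hsh 0 h6
          simp only [Nat.zero_sub] at h3 ⊢
          split_ifs at h4 <;> omega
      · have h4 := hsh (m - 1) (by omega)
        split_ifs at h4 <;> omega
  rcases hg.2 with h3 | h3
  · left
    rw [stat_gap hI hm ⟨hlow, Or.inl h3⟩]
    omega
  · rcases Nat.lt_or_ge m r with hmr | hmr
    · have h4 := hsh m hmr
      rcases Nat.lt_or_ge j (fn I m) with h5 | h5
      · left
        rw [stat_gap hI hm ⟨hlow, Or.inr h5⟩]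
        omega
      · right
        split_ifs at h4 with h6
        · have hjm : j = fn I m := by omega
          rcases Nat.lt_or_ge k m with h7 | h7
          · exfalso
            have h8 := hsh (m - 1) (by omega)
            have h9 := hI.add_le k (m - 1 - k) (by omega)
            rw [show k + (m - 1 - k) = m - 1 by omega] at h9
            have h10 := hI.lt_lt (show m - 1 < m by omega) hmr
            rw [if_pos ⟨by omega, by omega⟩] at h8
            rcases hg.1 with h11 | h11
            · omega
            · omega
          · have : m = k := by omega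
            rw [this] at hjm h2
            exact ⟨hjm, by omega⟩
        · omega
    · left
      rw [stat_gap hI hm ⟨hlow, Or.inl (by omega)⟩]
      omega

end Pool.Agent.U23.TB
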