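import Pool.Agent.H558R2.LP

/-!
# Basic solutions and minors
-/

set_option autoImplicit false

namespace Pool.Agent.U23.TB

open Matrix Pool.Agent.H558R2

variable {m n : ℕ} (A : Matrix (Fin m) (Fin n) ℝ) (b : Fin m → ℝ)

/-- The columns: at the place `q` the slack column of the row `q`, or the column of a variable. -/
def bas (σ : Fin m → Option (Fin n)) : Fin m → Option (Fin (m + (n + n))) := fun q =>
  (σ q).elim (some (colEquiv m n (Sum.inl q))) fun c => some (colEquiv m n (Sum.inr (Sum.inl c)))

lemma ent_bas (σ : Fin m → Option (Fin n)) (i q : Fin m) :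
    wmat A b i (bas σ q) = (σ q).elim (if i = q then 1 else 0) fun c => - A i c := by
  unfold bas
  cases h : σ q with
  | none => simp [wmat, colEntry]
  | some c => simp [wmat, colEntry]

lemma sum_sig {σ : Fin m → Option (Fin n)} {pos : Fin n → Fin m} (h1 : ∀ c, σ (pos c) = some c)
    (h2 : ∀ q c, σ q = some c → q = pos c) (f : Fin n → ℝ) :
    ∑ q, (σ q).elim 0 f = ∑ c, f c := by
  classical
  have h3 : ∀ q, (σ q).elim 0 f = ∑ c, if q = pos c then f c else 0 := by
    intro q
    cases h : σ q with
    | none =>
      symm
      refine Finset.sum_eq_zero fun c _ => ?_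
      rw [if_neg]
      intro h4
      rw [h4, h1] at h
      exact absurd h (by simp)
    | some c =>
      have h4 := h2 q c h
      rw [Finset.sum_eq_single c]
      · rw [if_pos h4]
        rfl
      · intro c' _ hc
        rw [if_neg]
        intro h5
        rw [h5, h1] at h
        exact hc (Option.some.inj h)
      · intro h5
        exact absurd (Finset.mem_univ _) h5
  simp only [h3]
  rw [Finset.sum_comm]
  refine Finset.sum_congr rfl fun c _ => ?_
  simp

lemma mv {σ : Fin m → Option (Fin n)} {pos : Fin n → Fin m} (h1 : ∀ c, σ (pos c) = some c)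
    (h2 : ∀ q c, σ q = some c → q = pos c) (v : Fin m → ℝ) (i : Fin m) :
    ∑ q, wmat A b i (bas σ q) * v q =
      (σ i).elim (v i) (fun _ => 0) - A.mulVec (fun c => v (pos c)) i := by
  classical
  have h3 : ∀ q, wmat A b i (bas σ q) * v q = (σ q).elim (if i = q then v q else 0) (fun _ => 0) +
      (σ q).elim 0 (fun c => - (A i c * v (pos c))) := by
    intro q
    rw [ent_bas]
    cases h : σ q with
    | none => simp
    | some c =>
      rw [h2 q c h]
      simp
  simp only [h3]
  rw [Finset.sum_add_distrib, sum_sig h1 h2, Finset.sum_neg_distrib, ← sub_eq_add_neg]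
  congr 1
  rw [Finset.sum_eq_single i]
  · cases h : σ i <;> simp
  · intro q _ hq
    cases h : σ q with
    | none => simp [Ne.symm hq]
    | some c => rfl
  · intro h5
    exact absurd (Finset.mem_univ _) h5

/-- The minor of a basis is not zero. -/
theorem dd_ne {σ : Fin m → Option (Fin n)} {pos : Fin n → Fin m} (h1 : ∀ c, σ (pos c) = some c)
    (h2 : ∀ q c, σ q = some c → q = pos c)
    (h3 : ∀ x : Fin n → ℝ, (∀ c, A.mulVec x (pos c) = 0) → x = 0) :
    dd (wmat A b) (bas σ) ≠ 0 := by
  unfold dd
  intro h4
  obtain ⟨v, hv, hv2⟩ := Matrix.exists_mulVec_eq_zero_iff.2 h4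
  have h5 : ∀ i, (σ i).elim (v i) (fun _ => 0) - A.mulVec (fun c => v (pos c)) i = 0 := by
    intro i
    rw [← mv A b h1 h2]
    exact congrFun hv2 i
  have h6 : (fun c => v (pos c)) = 0 := by
    refine h3 _ fun c => ?_
    have h7 := h5 (pos c)
    rw [h1] at h7
    simpa using h7
  apply hv
  funext q
  cases h : σ q with
  | none =>
    have h7 := h5 q
    rw [h, h6, Matrix.mulVec_zero] at h7
    simpa using h7
  | some c =>
    rw [h2 q c h]
    exact congrFun h6 c

/-- The values of the slack variables. -/
theorem dd_val {σ : Fin m → Option (Fin n)} {pos : Fin n → Fin m} (h1 : ∀ c, σ (pos c) = some c)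
    (h2 : ∀ q c, σ q = some c → q = pos c) {x : Fin n → ℝ}
    (hx : ∀ c, A.mulVec x (pos c) = b (pos c)) {q : Fin m} (hq : σ q = none) :
    dd (wmat A b) (Function.update (bas σ) q none) =
      dd (wmat A b) (bas σ) * (A.mulVec x q - b q) := by
  set v : Fin m → ℝ := fun q => (σ q).elim (A.mulVec x q - b q) x with hv
  have hvp : (fun c => v (pos c)) = x := by
    funext c
    simp only [hv, h1]
    rfl
  have h3 : (Matrix.of fun r j => wmat A b r (bas σ j)).mulVec v = fun r => wmat A b r none := by
    funext i
    have h4 := mv A b h1 h2 v i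
    rw [hvp] at h4
    show ∑ q, wmat A b i (bas σ q) * v q = - b i
    rw [h4]
    cases h : σ i with
    | none =>
      simp only [hv, h, Option.elim_none]
      ring
    | some c =>
      simp only [Option.elim_some]
      have h5 := h2 i c h
      rw [h5, hx c]
      ring
  rw [dd_update, ← h3, Matrix.cramer_eq_adjugate_mulVec, Matrix.mulVec_mulVec,
    Matrix.adjugate_mul, Matrix.smul_mulVec, Matrix.one_mulVec]
  simp only [Pi.smul_apply, smul_eq_mul]
  have h6 : v q = A.mulVec x q - b q := by
    simp only [hv, hq, Option.elim_none]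
  rw [h6]
  rfl

/-- Soundness. -/
theorem sound {σ : Fin m → Option (Fin n)} (h0 : dd (wmat A b) (bas σ) ≠ 0)
    (h1 : ∀ q, σ q = none → 0 ≤ dd (wmat A b) (Function.update (bas σ) q none) *
      dd (wmat A b) (bas σ)) : ∃ x : Fin n → ℝ, b ≤ A.mulVec x := by
  classical
  set D := dd (wmat A b) (bas σ) with hD
  set y : Fin m → ℝ := fun j => dd (wmat A b) (Function.update (bas σ) j none) / D with hy
  have hy0 : ∀ j, σ j = none → 0 ≤ y j := by
    intro j hj
    have : y j = dd (wmat A b) (Function.update (bas σ) j none) * D / (D * D) := by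
      rw [hy]
      field_simp
    rw [this]
    exact div_nonneg (h1 j hj) (mul_self_nonneg D)
  refine ⟨fun c => ∑ j, if σ j = some c then y j else 0, fun i => ?_⟩
  have e1 : A.mulVec (fun c => ∑ j, if σ j = some c then y j else 0) i =
      ∑ j, (σ j).elim 0 (fun c => A i c * y j) := by
    simp only [Matrix.mulVec, dotProduct, Finset.mul_sum]
    rw [Finset.sum_comm]
    refine Finset.sum_congr rfl fun j _ => ?_
    cases h : σ j with
    | none => simp
    | some c =>
      rw [Finset.sum_eq_single c]
      · simp
      · intro c' _ hc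
        rw [if_neg, mul_zero]
        intro h5
        exact hc (Option.some.inj h5).symm
      · intro h5
        exact absurd (Finset.mem_univ _) h5
  have e2 := sum_dd (wmat A b) (bas σ) none i
  have e3 : wmat A b i none = ∑ j, y j * wmat A b i (bas σ j) := by
    have : wmat A b i none = (D * wmat A b i none) / D := by
      field_simp
    rw [this, hD, e2, Finset.sum_div]
    refine Finset.sum_congr rfl fun j _ => ?_
    rw [hy]
    ring
  have e4 : wmat A b i none = - b i := rfl
  have e5 : ∑ j, y j * wmat A b i (bas σ j) =
      (∑ j, (σ j).elim (if i = j then y j else 0) fun _ => 0) -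
        ∑ j, (σ j).elim 0 (fun c => A i c * y j) := by
    rw [← Finset.sum_sub_distrib]
    refine Finset.sum_congr rfl fun j _ => ?_
    rw [ent_bas]
    cases h : σ j with
    | none => simp
    | some c =>
      simp only [Option.elim_some]
      ring
  have e6 : 0 ≤ ∑ j, (σ j).elim (if i = j then y j else 0) fun _ => 0 := by
    refine Finset.sum_nonneg fun j _ => ?_
    cases h : σ j with
    | none =>
      simp only [Option.elim_none]
      split_ifs
      · exact hy0 j h
      · exact le_refl _
    | some c => exact le_refl _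
  rw [e1]
  rw [e4, e5] at e3
  linarith

end Pool.Agent.U23.TB
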