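import Pool.Agent.U23.TB.BState
import Pool.Agent.U23.TB.Dict
import Pool.Agent.U23.TP.Prog

/-!
# The values of the queries
-/

set_option autoImplicit false

namespace Pool.Agent.U23.TB

open Pool.Agent.H558R2 Pool.Agent.H622R3.SM Pool.Agent.W920.FC Pool.Agent.U23.LR Pool.Agent.U23.TP

section
variable {m n r : ℕ} {I : List ℕ}

lemma col_iff (hm : m = r + r + n + n) {q c : ℕ} (hq : q < m) :
    colN m r n I q = m + c ↔ (q < r ∧ fn I q = c) ∨ (c < n ∧ q = r + r + c ∧ stat r I c = 0) ∨
      (c < n ∧ q = r + r + n + c ∧ stat r I c = 1) := by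
  unfold colN
  simp only [fn]
  split_ifs with h1 h2 h3 h4 h5
  · omega
  · omega
  · constructor
    · intro h
      have h6 : q - (r + r) = c := by omega
      rw [h6] at h4
      omega
    · rintro (h | h | h) <;> omega
  · constructor
    · omega
    · rintro (h | h | h)
      · omega
      · exfalso
        apply h4
        rw [show q - (r + r) = c by omega]
        exact h.2.2
      · omega
  · constructor
    · intro h
      have h6 : q - (r + r + n) = c := by omega
      rw [h6] at h5
      omega
    · rintro (h | h | h) <;> omega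
  · constructor
    · omega
    · rintro (h | h | h)
      · omega
      · omega
      · exfalso
        apply h5
        rw [show q - (r + r + n) = c by omega]
        exact h.2.2

lemma col_cases (hm : m = r + r + n + n) (hI : Inc r n (fn I)) {q : ℕ} (hq : q < m) :
    colN m r n I q = q ∨ ∃ c < n, colN m r n I q = m + c := by
  unfold colN
  split_ifs with h1 h2 h3 h4 h5
  · exact Or.inr ⟨_, hI.lt q h1, rfl⟩
  · exact Or.inl rfl
  · exact Or.inr ⟨_, by omega, rfl⟩
  · exact Or.inl rfl
  · exact Or.inr ⟨_, by omega, rfl⟩
  · exact Or.inl rfl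

/-- The basis. -/
def sig (m r n : ℕ) (I : List ℕ) : Fin m → Option (Fin n) := fun q =>
  if colN m r n I q = q then none
  else if h : colN m r n I q - m < n then some ⟨colN m r n I q - m, h⟩ else none

lemma sig_none {q : Fin m} (h : colN m r n I q = q) : sig m r n I q = none := by
  unfold sig
  rw [if_pos h]

lemma sig_some {q : Fin m} {c : ℕ} (hc : c < n) (h : colN m r n I q = m + c) :
    sig m r n I q = some ⟨c, hc⟩ := by
  unfold sig
  rw [if_neg (by have := q.2; omega), dif_pos (by omega)]
  congr 1
  apply Fin.ext
  simp only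
  omega

lemma sig_iff (hm : m = r + r + n + n) (hI : Inc r n (fn I)) {q : Fin m} {c : Fin n} :
    sig m r n I q = some c ↔ colN m r n I q = m + c := by
  rcases col_cases hm hI q.2 with h | ⟨c', hc', h⟩
  · rw [sig_none h]
    constructor
    · intro h1
      exact absurd h1 (by simp)
    · intro h1
      have := q.2
      omega
  · rw [sig_some hc' h]
    constructor
    · intro h1
      have h2 := congrArg Fin.val (Option.some.inj h1)
      simp only at h2
      rw [h, h2]
    · intro h1
      congr 1
      apply Fin.ext
      simp only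
      omega

lemma sig_none_iff (hm : m = r + r + n + n) (hI : Inc r n (fn I)) {q : Fin m} :
    sig m r n I q = none ↔ colN m r n I q = q := by
  constructor
  · intro h
    rcases col_cases hm hI q.2 with h1 | ⟨c', hc', h1⟩
    · exact h1
    · rw [sig_some hc' h1] at h
      exact absurd h (by simp)
  · exact sig_none

lemma gam2_getD (k : ℕ) {j : ℕ} (hj : j < m) :
    (gam2 m n r I k).getD j 0 = if j = k then m + (n + n) else colN m r n I j := by
  unfold gam2
  rw [List.getD_eq_getElem?_getD, List.getElem?_map, List.getElem?_range hj]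
  rfl

lemma beta_eq (hm : m = r + r + n + n) (hI : Inc r n (fn I)) (k : ℕ) (q : Fin m) :
    beta m n (code m n (gam2 m n r I k)) 0 q =
      if (q : ℕ) = k then none else bas (sig m r n I) q := by
  have hle : (gam2 m n r I k).getD q 0 ≤ m + (n + n) := by
    rw [gam2_getD k q.2]
    split_ifs
    · omega
    · rcases col_cases hm hI q.2 with h | ⟨c, hc, h⟩
      · rw [h]
        omega
      · rw [h]
        omega
  have h1 := colOf_code (gam2 m n r I k) q.2 hle
  rw [gam2_getD k q.2] at h1
  unfold beta
  split_ifs at h1 with h2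
  · rw [if_pos h2, dif_neg (by rw [h1]; omega)]
  · rw [if_neg h2]
    unfold bas
    rcases col_cases hm hI q.2 with h | ⟨c, hc, h⟩
    · rw [sig_none h, dif_pos (by rw [h1, h]; omega)]
      simp only [Option.elim_none]
      congr 1
      rw [eq_comm, ← Equiv.eq_symm_apply]
      have h3 := TEQ.symm_lo (m := m) (n := n) (colOf m n (code m n (gam2 m n r I k)) 0 q)
        (by rw [h1, h]; exact q.2) (by rw [h1, h]; omega)
      rw [h3]
      congr 1
      apply Fin.ext
      simp only
      rw [h1, h]
    · rw [sig_some hc h, dif_pos (by rw [h1, h]; omega)]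
      simp only [Option.elim_some]
      congr 1
      rw [eq_comm, ← Equiv.eq_symm_apply]
      have h3 := TEQ.symm_mid (m := m) (n := n) (colOf m n (code m n (gam2 m n r I k)) 0 q)
        (by rw [h1, h]; omega) (by rw [h1, h]; omega) (by rw [h1, h]; omega)
      rw [h3]
      congr 2
      apply Fin.ext
      simp only
      rw [h1, h]
      omega

end

section
variable {m n : ℕ} (A : Matrix (Fin m) (Fin n) ℝ) (b : Fin m → ℝ)

/-- The values of the queries. -/
noncomputable def valM (r : ℕ) (I : List ℕ) (k : ℕ) : ℝ :=
  dd (wmat A b) (beta m n (code m n (gam2 m n r I k)) 0)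

/-- The outcomes. -/
noncomputable def outs2 (r : ℕ) (I : List ℕ) : List Outcome :=
  (List.range (m + 1)).map fun k => signOut (valM A b r I k)

/-- The sequence of the states. -/
noncomputable def st2 (r : ℕ) : ℕ → List ℕ
  | 0 => List.range r
  | i + 1 => nxt2 m r n (st2 r i) (outs2 A b r (st2 r i))

lemma outs2_getD (r : ℕ) (I : List ℕ) {k : ℕ} (hk : k ≤ m) :
    (outs2 A b r I).getD k none = signOut (valM A b r I k) := by
  unfold outs2
  rw [List.getD_eq_getElem?_getD, List.getElem?_map, List.getElem?_range (by omega)]
  rfl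

lemma valM_m {r : ℕ} {I : List ℕ} (hm : m = r + r + n + n) (hI : Inc r n (fn I)) :
    valM A b r I m = dd (wmat A b) (bas (sig m r n I)) := by
  unfold valM
  congr 1
  funext q
  rw [beta_eq hm hI, if_neg (by have := q.2; omega)]

lemma valM_q {r : ℕ} {I : List ℕ} (hm : m = r + r + n + n) (hI : Inc r n (fn I)) (k : Fin m) :
    valM A b r I k = dd (wmat A b) (Function.update (bas (sig m r n I)) k none) := by
  unfold valM
  congr 1
  funext q
  rw [beta_eq hm hI, Function.update_apply]
  by_cases h : q = k
  · rw [if_pos h, if_pos (congrArg Fin.val h)]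
  · rw [if_neg h, if_neg fun h1 => h (Fin.ext h1)]

lemma signOut_none {v : ℝ} : signOut v = none ↔ v = 0 := by
  unfold signOut
  split_ifs with h1 h2
  · simp
    exact h1.ne'
  · simp
    exact h2.ne
  · simp
    exact le_antisymm (not_lt.1 h1) (not_lt.1 h2)

/-- a negative product of signs -/
lemma sign_neg {v D : ℝ} (hD : D ≠ 0) :
    (signOut v ≠ none ∧ signOut v ≠ signOut D) ↔ v * D < 0 := by
  rcases lt_or_gt_of_ne hD with h | h
  · have h1 : signOut D = some false := by
      unfold signOut
      rw [if_neg h.le.not_gt, if_pos h]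
    rw [h1]
    unfold signOut
    split_ifs with h2 h3
    · simp
      exact mul_neg_of_pos_of_neg h2 h
    · simp
      exact (mul_pos_of_neg_of_neg h3 h).le
    · have : v = 0 := le_antisymm (not_lt.1 h2) (not_lt.1 h3)
      simp [this]
  · have h1 : signOut D = some true := by
      unfold signOut
      rw [if_pos h]
    rw [h1]
    unfold signOut
    split_ifs with h2 h3
    · simp
      exact (mul_pos h2 h).le
    · simp
      exact mul_neg_of_neg_of_pos h3 h
    · have : v = 0 := le_antisymm (not_lt.1 h2) (not_lt.1 h3)
      simp [this]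

lemma ng_iff {r : ℕ} {I : List ℕ} (hD : valM A b r I m ≠ 0) {q : ℕ} (hq : q < m) :
    ng m (outs2 A b r I) q = true ↔ valM A b r I q * valM A b r I m < 0 := by
  unfold ng
  rw [outs2_getD A b r I hq.le, outs2_getD A b r I (le_refl m), Bool.and_eq_true,
    Bool.not_eq_true', Bool.not_eq_true', decide_eq_false_iff_not, decide_eq_false_iff_not]
  exact sign_neg hD

/-- soundness of the final test -/
lemma ok2_sound {r : ℕ} {I : List ℕ} (hm : m = r + r + n + n) (hI : Inc r n (fn I))
    (h : ok2 m r n I (outs2 A b r I) = true) : ∃ x : Fin n → ℝ, b ≤ A.mulVec x := by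
  unfold ok2 at h
  rw [Bool.and_eq_true, Bool.not_eq_true', decide_eq_false_iff_not,
    outs2_getD A b r I (le_refl m), signOut_none, List.all_eq_true] at h
  obtain ⟨h1, h2⟩ := h
  have h3 := valM_m A b hm hI
  refine sound A b (σ := sig m r n I) (by rw [← h3]; exact h1) fun q hq => ?_
  have h4 := h2 q (List.mem_range.2 q.2)
  rw [Bool.or_eq_true, Bool.not_eq_true', decide_eq_false_iff_not, Bool.not_eq_true'] at h4
  rw [sig_none_iff hm hI] at hq
  rcases h4 with h4 | h4
  · exact absurd hq h4
  · rw [← valM_q A b hm hI, ← h3]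
    by_contra h5
    rw [← Bool.not_eq_true, ng_iff A b h1 q.2] at h4
    exact h4 (not_le.1 h5)

end

end Pool.Agent.U23.TB
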